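import Pool.Agent.Y707.RX.Glue
import Pool.Agent.Y707.DK.Res

/-!
# The continuation of `Φ₁` for families whose fibre averages are numbers of roots
-/

set_option autoImplicit false
set_option maxHeartbeats 400000

namespace Pool.Agent.Q11.PB

open NumberField IsDedekindDomain Filter Topology Polynomial
open Pool.Agent.H126R3 (Qc Qc_pos)
open Pool.Agent.W385.CP (Qc_zero card_Fc Fc hom_int)
open Pool.Agent.W353.FB (Fibration LocalValue ValueAt)
open Pool.Agent.Y707.PH (averageValue Off off_eventually av cf Ph)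
open Pool.Agent.Y707.RX
open Pool.Agent.Y707.DK (nr numFactors roots_fields)

section
variable {K : Type} [Field K] [NumberField K] {g : Fibration K}
  {R : Finset (HeightOneSpectrum (𝓞 K))} {C : ℝ}

/-- **Continuation from the values at the prime numbers.** -/
theorem full' (hg : IsSmoothFamily g R C) (hb : IsBounded (averageValue g) R C)
    (F : Type) [Field F] [NumberField F] [Algebra K F] {r : ℤ}
    (hkey : ∃ (κ : Type) (_ : Fintype κ) (L : κ → Type) (_ : ∀ j, Field (L j))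
      (_ : ∀ j, NumberField (L j)) (a : κ → ℝ) (D : ℝ), ∑ j, a j = (r : ℝ) ∧
      ∀ᶠ p : Nat.Primes in cofinite,
        haveI : Fact (p : ℕ).Prime := ⟨p.2⟩
        ‖((-sm R F (fun _ _ φ => -av g φ) (ZMod (p : ℕ)) : ℝ) : ℂ) + cmb L a p‖ ≤
          D * ((p : ℕ) : ℝ) ^ (-(1 / 2) : ℝ)) :
    Continues g R F r := by
  classical
  set δ : ∀ (κ : Type) [Field κ], (𝓞 K →+* κ) → ℝ := fun _ _ φ => -av g φ with hδ
  have hδb : ∀ (κ : Type) [Field κ] [Finite κ] (φ : 𝓞 K →+* κ), Off R φ → |δ κ φ| ≤ C := by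
    intro κ _ _ φ hφ
    exact hb κ φ hφ _ ⟨_, av_isAverage hg hφ, rfl⟩
  set d : Nat.Primes × ℕ → ℂ := fun c => cf g R F c / ((Qc c : ℕ) : ℂ) ^ g.m with hd
  have hde : ∀ (c : Nat.Primes × ℕ) (k : Type) [Field k] [Finite k], Nat.card k = Qc c →
      d c = ((-sm R F δ k : ℝ) : ℂ) / ((c.2 + 1 : ℕ) : ℂ) := by
    intro c k _ _ hk
    rw [hd]
    simp only
    rw [wt_div hk hg]
    congr 2
    have hfin := hom_int F k
    have hf1 := hfin.1
    let _ := Fintype.ofFinite (𝓞 F →+* k)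
    unfold sm
    rw [finsum_eq_sum_of_fintype, finsum_eq_sum_of_fintype, ← Finset.sum_neg_distrib]
    refine Finset.sum_congr rfl fun φ _ => ?_
    rw [hδ]
    split_ifs
    · ring
    · ring
  have hdb : ∀ c, ‖d c‖ ≤ Module.finrank ℤ (𝓞 F) * |C| := by
    intro c
    rw [hde c (Fc c) (card_Fc c), norm_div, Complex.norm_real, Complex.norm_natCast,
      Real.norm_eq_abs, abs_neg]
    have h2 : (1 : ℝ) ≤ ((c.2 + 1 : ℕ) : ℝ) := by exact_mod_cast Nat.succ_pos _
    exact (div_le_self (abs_nonneg _) h2).trans (abs_sm hδb (Fc c))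
  obtain ⟨G, hG, hGw⟩ : ∃ G : ℂ → ℂ, AnalyticAt ℂ G 1 ∧ ∀ᶠ w in 𝓝 (1 : ℂ), 1 < w.re →
      Complex.exp (SD d w) = (w - 1) ^ r * Complex.exp (G w) := by
    obtain ⟨κ, hκ, L, hL, hL', a, D, hsum, hk⟩ := hkey
    refine near_one (L := L) (a := a) hdb (D := D) ?_ (r := r) hsum
    filter_upwards [hk] with p hp
    have : Fact (p : ℕ).Prime := ⟨p.2⟩
    have hk : Nat.card (ZMod (p : ℕ)) = Qc (p, 0) := by
      rw [Nat.card_zmod, Qc_zero]
    have h1 := hde (p, 0) (ZMod (p : ℕ)) hk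
    rw [h1]
    simp only [zero_add, Nat.cast_one, div_one]
    exact hp
  have h4 : Continues g R F (0 + r) := by
    refine glue hg (Λ₀ := fun _ => 1) (E := fun w => Complex.exp (SD d w)) (G := G)
      (fun w hw => ?_) (fun x _ => MeromorphicAt.const 1 _) ?_ (SD_diff hdb).cexp hG hGw
    · rw [one_mul]
      unfold Ph SD
      congr 1
      refine tsum_congr fun c => ?_
      have hq : ((Qc c : ℕ) : ℂ) ≠ 0 := by exact_mod_cast (Qc_pos c).ne'
      rw [neg_add, Complex.cpow_add _ _ hq, Complex.cpow_neg, Complex.cpow_natCast]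
      rw [hd]
      ring
    · have h5 : MeromorphicAt (fun _ : ℂ => (1 : ℂ)) 1 := MeromorphicAt.const 1 _
      exact (meromorphicOrderAt_eq_int_iff (n := 0) h5).2
        ⟨fun _ => 1, analyticAt_const, one_ne_zero, Filter.Eventually.of_forall fun z => by
          simp⟩
  rwa [zero_add] at h4

end

end Pool.Agent.Q11.PB
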