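import Pool.Agent.Q11.PB.Key

/-!
# Families of hyperelliptic curves with one point at infinity

`hyp g m X h f` is the family of the smooth projective models of the curves `Y ^ 2 = f_t(X)` of genus
`g`, over the points `t` of the variety `X`, of dimension `m`, with `2 h(t) ≠ 0` and `f_t` separable.
-/

set_option autoImplicit false
set_option maxHeartbeats 400000

namespace Pool.Agent.Q11.PB

open NumberField IsDedekindDomain Filter Topology Polynomial
open Pool.Agent.W353.FB (Fibration LocalValue ValueAt IsTrace)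
open Pool.Agent.Y707.PH (averageValue Off av IsEigen)
open Pool.Agent.Y707.RX
open Pool.Agent.Y707.PC (modelEquations isEigen_model ringChar_of_two cs ch)
open Pool.Agent.Y707.DK (rs rs_map sep_of_rs traceOne traceOne_eq numFactors nr)

section
variable {B : Type} [Field B] {g : ℕ}

/-- the discriminant vanishes exactly if there is a multiple root, in every characteristic -/
theorem rs_ne_iff {f : B[X]} (hm : f.Monic) (hd : f.natDegree = 2 * g + 1) :
    rs g f ≠ 0 ↔ f.Separable := by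
  refine ⟨fun h => sep_of_rs hd h, fun h => ?_⟩
  have h0 : rs g f = Polynomial.resultant f (derivative f) := by
    unfold rs
    rw [← hd]
    have hle : (derivative f).natDegree ≤ 2 * g := by
      have := natDegree_derivative_le f
      omega
    have h1 := Polynomial.resultant_add_right_deg f (derivative f) f.natDegree
      (derivative f).natDegree (2 * g - (derivative f).natDegree) le_rfl
    rw [Nat.add_sub_cancel' hle, hm.coeff_natDegree, one_pow, one_mul] at h1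
    exact h1
  rw [h0]
  exact Polynomial.resultant_ne_zero _ _ h

end

section
variable {K : Type} [Field K]

/-- The family of the smooth projective models of the curves `Y ^ 2 = f_t(X)` of genus `g`, with one
point at infinity, over the points `t` with `e(t) = 0` for all `e ∈ X`, `2 h(t) ≠ 0` and nonzero
discriminant. -/
noncomputable def hyp {n : ℕ} (g m : ℕ) (V : Set (MvPolynomial (Fin n) (𝓞 K)))
    (h : MvPolynomial (Fin n) (𝓞 K)) (f : (MvPolynomial (Fin n) (𝓞 K))[X]) : Fibration K where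
  l := n
  eqBase := V
  h := 2 * h * rs g f
  m := m
  n := g + 3
  eqFibre := modelEquations g f
  r := 1
  one_le := le_rfl

variable {n g m : ℕ} {V : Set (MvPolynomial (Fin n) (𝓞 K))} {h : MvPolynomial (Fin n) (𝓞 K)}
  {f : (MvPolynomial (Fin n) (𝓞 K))[X]} {κ : Type} [Field κ]

theorem mem_hyp (hm : f.Monic) (hd : f.natDegree = 2 * g + 1) (φ : 𝓞 K →+* κ)
    (t : Fin n → κ) : t ∈ (hyp g m V h f).points φ ↔ (∀ e ∈ V, MvPolynomial.eval₂ φ t e = 0) ∧
      (2 : κ) ≠ 0 ∧ MvPolynomial.eval₂ φ t h ≠ 0 ∧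
      (f.map (MvPolynomial.eval₂Hom φ t)).Separable := by
  have e1 : MvPolynomial.eval₂ φ t (hyp g m V h f).h =
      2 * MvPolynomial.eval₂ φ t h * rs g (f.map (MvPolynomial.eval₂Hom φ t)) := by
    have e : MvPolynomial.eval₂ φ t (hyp g m V h f).h =
        MvPolynomial.eval₂Hom φ t (2 * h * rs g f) := rfl
    rw [e, map_mul, map_mul, map_ofNat, rs_map]
    rfl
  have e2 := rs_ne_iff (g := g) (hm.map (MvPolynomial.eval₂Hom φ t))
    (by rw [hm.natDegree_map, hd])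
  constructor
  · rintro ⟨h3, h4'⟩
    have h4 : 2 * MvPolynomial.eval₂ φ t h * rs g (f.map (MvPolynomial.eval₂Hom φ t)) ≠ 0 :=
      fun h0 => h4' (e1.trans h0)
    exact ⟨h3, left_ne_zero_of_mul (left_ne_zero_of_mul h4),
      right_ne_zero_of_mul (left_ne_zero_of_mul h4), e2.1 (right_ne_zero_of_mul h4)⟩
  · rintro ⟨h3, h4, h5, h6⟩
    exact ⟨h3, fun h0 => mul_ne_zero (mul_ne_zero h4 h5) (e2.2 h6) (e1.symm.trans h0)⟩

variable [Fintype κ]

theorem eigen_hyp (hm : f.Monic) (hd : f.natDegree = 2 * g + 1) {φ : 𝓞 K →+* κ}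
    {t : Fin n → κ} (ht : t ∈ (hyp g m V h f).points φ) :
    ∃ γ : Multiset ℂ, IsEigen (hyp g m V h f).eqFibre 1 1 (MvPolynomial.eval₂Hom φ t) γ ∧
      γ.card = 2 * g ∧ γ.sum = ((traceOne (f.map (MvPolynomial.eval₂Hom φ t)) : ℝ) : ℂ) := by
  rw [mem_hyp hm hd] at ht
  obtain ⟨-, h2, -, h3⟩ := ht
  obtain ⟨γ, h6, h7, h8⟩ := isEigen_model (ringChar_of_two h2) (g := g) (f := f) hd.le
    (MvPolynomial.eval₂Hom φ t) (hm.map _) (by rw [hm.natDegree_map, hd]) h3.squarefree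
  refine ⟨γ, h6, h7, ?_⟩
  rw [h8, traceOne_eq (ringChar_of_two h2)]
  unfold cs ch
  push_cast
  rfl

/-- the sum of the traces -/
noncomputable def sumTr (g m : ℕ) (V : Set (MvPolynomial (Fin n) (𝓞 K)))
    (h : MvPolynomial (Fin n) (𝓞 K)) (f : (MvPolynomial (Fin n) (𝓞 K))[X]) {κ : Type} [Field κ]
    (φ : 𝓞 K →+* κ) : ℝ :=
  ((Nat.card κ : ℝ) ^ m)⁻¹ * ∑ᶠ t ∈ {t : Fin n → κ | (∀ e ∈ V, MvPolynomial.eval₂ φ t e = 0) ∧
      (2 : κ) ≠ 0 ∧ MvPolynomial.eval₂ φ t h ≠ 0 ∧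
      (f.map (MvPolynomial.eval₂Hom φ t)).Separable}, traceOne (f.map (MvPolynomial.eval₂Hom φ t))

theorem points_hyp (hm : f.Monic) (hd : f.natDegree = 2 * g + 1) (φ : 𝓞 K →+* κ) :
    (hyp g m V h f).points φ = {t : Fin n → κ | (∀ e ∈ V, MvPolynomial.eval₂ φ t e = 0) ∧
      (2 : κ) ≠ 0 ∧ MvPolynomial.eval₂ φ t h ≠ 0 ∧
      (f.map (MvPolynomial.eval₂Hom φ t)).Separable} :=
  Set.ext fun t => mem_hyp hm hd φ t

theorem isAverage_hyp (hm : f.Monic) (hd : f.natDegree = 2 * g + 1) (φ : 𝓞 K →+* κ) :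
    (hyp g m V h f).IsAverage 1 φ (sumTr g m V h f φ) := by
  refine ⟨fun t : Fin n → κ => traceOne (f.map (MvPolynomial.eval₂Hom φ t)), ?_, ?_⟩
  · intro t ht
    obtain ⟨γ, h1, h2, h3⟩ := eigen_hyp hm hd ht
    exact h1.isTrace h3
  · have e := points_hyp (m := m) (V := V) (h := h) hm hd φ
    unfold sumTr
    rw [← e]
    rfl

end

section
variable {K : Type} [Field K] [NumberField K] {n g m : ℕ}
  {V : Set (MvPolynomial (Fin n) (𝓞 K))} {h : MvPolynomial (Fin n) (𝓞 K)}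
  {f : (MvPolynomial (Fin n) (𝓞 K))[X]}

theorem averageValue_hyp (hm : f.Monic) (hd : f.natDegree = 2 * g + 1) {κ : Type} [Field κ]
    [Fintype κ] (φ : 𝓞 K →+* κ) (z : ℝ) :
    averageValue (hyp g m V h f) κ φ z ↔ z = -sumTr g m V h f φ := by
  constructor
  · rintro ⟨A, hA, rfl⟩
    rw [Pool.Agent.W353.FB.average_unique (hyp g m V h f) (by show 1 ≤ 2 * 1; omega) hA
      (isAverage_hyp hm hd φ)]
  · rintro rfl
    exact ⟨_, isAverage_hyp hm hd φ, rfl⟩

theorem smooth_hyp (hm : f.Monic) (hd : f.natDegree = 2 * g + 1) {C : ℝ}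
    (hC : ∀ (κ : Type) [Field κ] [Fintype κ] (φ : 𝓞 K →+* κ),
      (Nat.card ((hyp g m V h f).points φ) : ℝ) ≤ C * (Fintype.card κ : ℝ) ^ m)
    (R : Finset (HeightOneSpectrum (𝓞 K))) :
    IsSmoothFamily (hyp g m V h f) R (max C (2 * g)) := by
  intro κ _ _ φ _
  let _ := Fintype.ofFinite κ
  constructor
  · refine (hC κ φ).trans ?_
    rw [Nat.card_eq_fintype_card]
    exact mul_le_mul_of_nonneg_right (le_max_left _ _) (by positivity)
  · intro t ht
    obtain ⟨γ, h1, h2, h3⟩ := eigen_hyp hm hd ht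
    refine ⟨γ, h1, ?_⟩
    rw [h2]
    push_cast
    exact le_max_right _ _

theorem bounded_hyp (hm : f.Monic) (hd : f.natDegree = 2 * g + 1) {C : ℝ}
    (hC : ∀ (κ : Type) [Field κ] [Fintype κ] (φ : 𝓞 K →+* κ), |sumTr g m V h f φ| ≤ C)
    (R : Finset (HeightOneSpectrum (𝓞 K))) {C' : ℝ} (hCC : C ≤ C') :
    IsBounded (averageValue (hyp g m V h f)) R C' := by
  intro κ _ _ φ _ z hz
  let _ := Fintype.ofFinite κ
  rw [averageValue_hyp hm hd] at hz
  rw [hz, abs_neg]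
  exact (hC κ φ).trans hCC

/-- **The continuation of `Φ₁`.** -/
theorem continues_hyp (hm : f.Monic) (hd : f.natDegree = 2 * g + 1) {C₁ C₂ : ℝ}
    (hC₁ : ∀ (κ : Type) [Field κ] [Fintype κ] (φ : 𝓞 K →+* κ),
      (Nat.card ((hyp g m V h f).points φ) : ℝ) ≤ C₁ * (Fintype.card κ : ℝ) ^ m)
    (hC₂ : ∀ (κ : Type) [Field κ] [Fintype κ] (φ : 𝓞 K →+* κ), |sumTr g m V h f φ| ≤ C₂)
    (k : ℤ) {D : (𝓞 K)[X]} (hD : D.Monic) (hs : (D.map (algebraMap (𝓞 K) K)).Separable)
    {B : ℝ} {c : 𝓞 K} (hc : c ≠ 0)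
    (hasy : ∀ (κ : Type) [Field κ] [Fintype κ] (φ : 𝓞 K →+* κ), φ c ≠ 0 →
      |sumTr g m V h f φ + ((k : ℝ) + nr D φ)| * Real.sqrt (Fintype.card κ) ≤ B)
    (R : Finset (HeightOneSpectrum (𝓞 K))) (E : IntermediateField K (AlgebraicClosure K))
    [NumberField E] :
    Continues (hyp g m V h f) R E
      (k + numFactors (D.map ((algebraMap K E).comp (algebraMap (𝓞 K) K)))) := by
  have h1 := smooth_hyp hm hd hC₁ R
  have hCC : C₂ ≤ max (max C₁ (2 * g)) C₂ := le_max_right _ _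
  have h1' : IsSmoothFamily (hyp g m V h f) R (max (max C₁ (2 * g)) C₂) := by
    intro κ _ _ φ hφ
    obtain ⟨h2, h3⟩ := h1 κ φ hφ
    refine ⟨h2.trans (mul_le_mul_of_nonneg_right (le_max_left _ _) (by positivity)),
      fun t ht => ?_⟩
    obtain ⟨γ, h4, h5⟩ := h3 t ht
    exact ⟨γ, h4, h5.trans (le_max_left _ _)⟩
  refine full' h1' (bounded_hyp hm hd hC₂ R hCC) E ?_
  refine key' k hD hs (α := fun κ _ φ => Pool.Agent.Y707.PH.av (hyp g m V h f) φ) (B := B) hc ?_ R E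
  intro κ _ _ φ hφ
  have h3 : Pool.Agent.Y707.PH.av (hyp g m V h f) φ = sumTr g m V h f φ := by
    have h4 := smooth_hyp hm hd hC₁ ∅
    exact (av_eq h4 (fun v hv => absurd hv (Finset.notMem_empty v))
      (isAverage_hyp (m := m) (V := V) (h := h) hm hd φ)).symm
  show |Pool.Agent.Y707.PH.av (hyp g m V h f) φ + ((k : ℝ) + nr D φ)| *
    Real.sqrt (Fintype.card κ) ≤ B
  rw [h3]
  exact hasy κ φ hφ

end

end Pool.Agent.Q11.PB
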