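import Pool.Agent.Q11.PB.Engine

/-!
# The sums at the prime numbers, for averages that are numbers of roots
-/

set_option autoImplicit false
set_option maxHeartbeats 400000

namespace Pool.Agent.Q11.PB

open NumberField IsDedekindDomain Filter Topology Polynomial
open Pool.Agent.W353.TP (res)
open Pool.Agent.W353.FB (finite_below)
open Pool.Agent.Y707.PH (Off off_eventually)
open Pool.Agent.Y707.RX (sm cmb)
open Pool.Agent.Y707.DK (nr nr_base map_base numFactors roots_fields sqrt_rpow)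

section
variable {K : Type} [Field K] [NumberField K]

/-- **The sums at the prime numbers.** -/
theorem key' (n : ℤ) {D : (𝓞 K)[X]} (hm : D.Monic) (hs : (D.map (algebraMap (𝓞 K) K)).Separable)
    {α : ∀ (κ : Type) [Field κ], (𝓞 K →+* κ) → ℝ} {B : ℝ} {c : 𝓞 K} (hc : c ≠ 0)
    (hasy : ∀ (κ : Type) [Field κ] [Fintype κ] (φ : 𝓞 K →+* κ), φ c ≠ 0 →
      |α κ φ + ((n : ℝ) + nr D φ)| * Real.sqrt (Fintype.card κ) ≤ B)
    (R : Finset (HeightOneSpectrum (𝓞 K))) (E : IntermediateField K (AlgebraicClosure K))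
    [NumberField E] :
    ∃ (κ : Type) (_ : Fintype κ) (L : κ → Type) (_ : ∀ j, Field (L j))
      (_ : ∀ j, NumberField (L j)) (a : κ → ℝ) (C : ℝ),
      ∑ j, a j = ((n + numFactors (D.map ((algebraMap K E).comp (algebraMap (𝓞 K) K))) : ℤ) : ℝ) ∧
      ∀ᶠ p : Nat.Primes in cofinite,
        haveI : Fact (p : ℕ).Prime := ⟨p.2⟩
        ‖((-sm R E (fun κ _ φ => -α κ φ) (ZMod (p : ℕ)) : ℝ) : ℂ) + cmb L a p‖ ≤
          C * ((p : ℕ) : ℝ) ^ (-(1 / 2) : ℝ) := by
  classical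
  have hmE : (D.map (algebraMap (𝓞 K) (𝓞 E))).Monic := hm.map _
  have hsE : ((D.map (algebraMap (𝓞 K) (𝓞 E))).map (algebraMap (𝓞 E) E)).Separable := by
    rw [map_base, ← Polynomial.map_map]
    exact hs.map
  obtain ⟨κ, hκ, L, hL1, hL2, hcard, hk⟩ := roots_fields hmE hsE
  rw [map_base] at hcard
  let L' : Option κ → Type := fun j => match j with
    | none => E
    | some i => L i
  let i1 : ∀ j, Field (L' j) := fun j => match j with
    | none => inferInstanceAs (Field E)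
    | some i => hL1 i
  have i2 : ∀ j, NumberField (L' j) := fun j => match j with
    | none => inferInstanceAs (NumberField E)
    | some i => hL2 i
  let a' : Option κ → ℝ := fun j => j.elim (n : ℝ) fun _ => 1
  refine ⟨Option κ, inferInstance, L', i1, i2, a', Module.finrank ℚ E * |B|, ?_, ?_⟩
  · rw [Fintype.sum_option]
    show (n : ℝ) + ∑ _i : κ, (1 : ℝ) = _
    rw [Finset.sum_const, Finset.card_univ, hcard, nsmul_eq_mul, mul_one]
    push_cast
    rfl
  have hcfin : {v : HeightOneSpectrum (𝓞 K) | ¬ c ∉ v.asIdeal}.Finite := by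
    have := Pool.Agent.Y707.PC.ae_notMem hc
    rwa [Filter.eventually_cofinite] at this
  filter_upwards [hk, off_eventually R, finite_below (F := K) hcfin] with p h1 h2 h3
  have : Fact (p : ℕ).Prime := ⟨p.2⟩
  have hfin := Pool.Agent.H921R2.TatePole.hom_finite (K := E) p
  let _ := Fintype.ofFinite (𝓞 E →+* ZMod (p : ℕ))
  have hp0 : (0 : ℝ) < ((p : ℕ) : ℝ) ^ (-(1 / 2) : ℝ) := by
    have : (0 : ℝ) < ((p : ℕ) : ℝ) := by exact_mod_cast p.2.pos
    positivity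
  have hcmb : cmb L' a' p = (n : ℂ) * (Nat.card (𝓞 E →+* ZMod (p : ℕ)) : ℂ) +
      ((∑ j, Nat.card (𝓞 (L j) →+* ZMod (p : ℕ)) : ℕ) : ℂ) := by
    unfold cmb
    rw [Fintype.sum_option]
    congr 1
    push_cast
    refine Finset.sum_congr rfl fun j _ => ?_
    show (((1 : ℝ) : ℝ) : ℂ) * _ = _
    rw [Complex.ofReal_one, one_mul]
  have hval : ∀ ψ : 𝓞 E →+* ZMod (p : ℕ),
      |α (ZMod (p : ℕ)) (ψ.comp (algebraMap (𝓞 K) (𝓞 E))) + ((n : ℝ) +
        nr D (ψ.comp (algebraMap (𝓞 K) (𝓞 E))))| ≤ |B| * ((p : ℕ) : ℝ) ^ (-(1 / 2) : ℝ) := by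
    intro ψ
    have h4 := h3 (ψ.comp (algebraMap (𝓞 K) (𝓞 E)))
    rw [not_not] at h4
    have h5 : (ψ.comp (algebraMap (𝓞 K) (𝓞 E))) c ≠ 0 := fun h0 => h4 h0
    have h8 := hasy (ZMod (p : ℕ)) _ h5
    rw [ZMod.card] at h8
    have h10 := mul_le_mul_of_nonneg_right (h8.trans (le_abs_self B)) hp0.le
    rw [mul_assoc, mul_comm (Real.sqrt _), sqrt_rpow, mul_one] at h10
    exact h10
  have e1 : sm R E (fun κ _ φ => -α κ φ) (ZMod (p : ℕ)) =
      ∑ ψ : 𝓞 E →+* ZMod (p : ℕ), -α (ZMod (p : ℕ)) (ψ.comp (algebraMap (𝓞 K) (𝓞 E))) := by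
    unfold sm
    rw [finsum_eq_sum_of_fintype]
    refine Finset.sum_congr rfl fun ψ _ => ?_
    exact if_pos (h2 _)
  have e2 : cmb L' a' p = ((∑ ψ : 𝓞 E →+* ZMod (p : ℕ), ((n : ℝ) +
      nr D (ψ.comp (algebraMap (𝓞 K) (𝓞 E)))) : ℝ) : ℂ) := by
    rw [hcmb, ← h1, finsum_eq_sum_of_fintype, Finset.sum_add_distrib, Finset.sum_const,
      Finset.card_univ, nsmul_eq_mul, Nat.card_eq_fintype_card]
    push_cast
    rw [mul_comm]
    congr 1
    refine Finset.sum_congr rfl fun ψ _ => ?_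
    have := nr_base (D₀ := D) E ψ
    unfold nr at this ⊢
    rw [this]
  rw [e1, e2, ← Complex.ofReal_add, Complex.norm_real, Real.norm_eq_abs, ← Finset.sum_neg_distrib,
    ← Finset.sum_add_distrib]
  refine (Finset.abs_sum_le_sum_abs _ _).trans ?_
  have h7 : ∀ ψ ∈ (Finset.univ : Finset (𝓞 E →+* ZMod (p : ℕ))),
      |- -α (ZMod (p : ℕ)) (ψ.comp (algebraMap (𝓞 K) (𝓞 E))) + ((n : ℝ) +
        nr D (ψ.comp (algebraMap (𝓞 K) (𝓞 E))))| ≤ |B| * ((p : ℕ) : ℝ) ^ (-(1 / 2) : ℝ) := by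
    intro ψ _
    rw [neg_neg]
    exact hval ψ
  refine (Finset.sum_le_card_nsmul _ _ _ h7).trans ?_
  rw [nsmul_eq_mul, Finset.card_univ, mul_assoc]
  refine mul_le_mul_of_nonneg_right ?_ (by positivity)
  have h11 := H332.PIT.hc_cast_le (K := E) p.2
  rwa [Nat.card_eq_fintype_card] at h11

end

end Pool.Agent.Q11.PB
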