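import Pool.Agent.Q11.PB.Tau
import Pool.Agent.Y707.PC.Fin

/-!
# The sums at the prime numbers, for values that are an integer plus the values of a family
-/

set_option autoImplicit false
set_option maxHeartbeats 400000

namespace Pool.Agent.Q11.PB

open NumberField IsDedekindDomain Filter Topology
open Pool.Agent.W353.TD (rank)
open Pool.Agent.W353.FB (finite_below LocalValue IsPartOf)
open Pool.Agent.Y707.PH (Off off_eventually)
open Pool.Agent.Y707.RX (sm cmb key)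
open Pool.Agent.Y707.DK (sqrt_rpow)

section
variable {K : Type} [Field K] [NumberField K] {W : Type} [AddCommGroup W] [Module ℚ W]
  [FiniteDimensional ℚ W] {ρ : Representation ℚ (Pool.Agent.W401.Cheb.GK K) W} {P : LocalValue K}
  {R : Finset (HeightOneSpectrum (𝓞 K))}

/-- **The sums at the prime numbers.** -/
theorem key_add (n : ℤ) (hP : IsPartOf P (Module.finrank ℚ W) ρ)
    {δ α : ∀ (κ : Type) [Field κ], (𝓞 K →+* κ) → ℝ}
    (hval : ∀ (κ : Type) [Field κ] [Finite κ] (φ : 𝓞 K →+* κ), Off R φ → ∀ z : ℝ, P κ φ z →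
      z = δ κ φ) {B : ℝ} {c : 𝓞 K} (hc : c ≠ 0)
    (hasy : ∀ (κ : Type) [Field κ] [Fintype κ] (φ : 𝓞 K →+* κ), φ c ≠ 0 →
      |α κ φ - ((n : ℝ) + δ κ φ)| * Real.sqrt (Fintype.card κ) ≤ B)
    (E : IntermediateField K (AlgebraicClosure K)) [NumberField E] :
    ∃ (κ : Type) (_ : Fintype κ) (L : κ → Type) (_ : ∀ j, Field (L j))
      (_ : ∀ j, NumberField (L j)) (a : κ → ℝ) (D : ℝ),
      ∑ j, a j = ((n + rank ρ E : ℤ) : ℝ) ∧
      ∀ᶠ p : Nat.Primes in cofinite,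
        haveI : Fact (p : ℕ).Prime := ⟨p.2⟩
        ‖((-sm R E α (ZMod (p : ℕ)) : ℝ) : ℂ) + cmb L a p‖ ≤
          D * ((p : ℕ) : ℝ) ^ (-(1 / 2) : ℝ) := by
  classical
  obtain ⟨κ, hκ, L, hL, a, D, ha, hk⟩ := key hP hval E
  let L' : Option κ → IntermediateField K (AlgebraicClosure K) := fun j => j.elim E fun i => L i
  have i2 : ∀ j, NumberField (L' j) := by
    rintro (_ | i)
    · exact inferInstanceAs (NumberField E)
    · exact hL i
  let a' : Option κ → ℝ := fun j => j.elim (n : ℝ) a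
  have hcmb : ∀ p : Nat.Primes, cmb (fun j => L' j) a' p =
      (n : ℂ) * (Nat.card (𝓞 E →+* ZMod (p : ℕ)) : ℂ) + cmb (fun j => L j) a p := by
    intro p
    unfold cmb
    rw [Fintype.sum_option]
    rfl
  refine ⟨Option κ, inferInstance, fun j => L' j, fun j => inferInstance, i2, a',
    D + Module.finrank ℚ E * |B|, ?_, ?_⟩
  · rw [Fintype.sum_option]
    show (n : ℝ) + ∑ i, a i = _
    rw [ha]
    push_cast
    rfl
  have hcfin : {v : HeightOneSpectrum (𝓞 K) | ¬ c ∉ v.asIdeal}.Finite := by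
    have := Pool.Agent.Y707.PC.ae_notMem hc
    rwa [Filter.eventually_cofinite] at this
  filter_upwards [hk, off_eventually R, finite_below (F := K) hcfin] with p h1 h2 h3
  have : Fact (p : ℕ).Prime := ⟨p.2⟩
  have hfin := Pool.Agent.H921R2.TatePole.hom_finite (K := E) p
  let _ := Fintype.ofFinite (𝓞 E →+* ZMod (p : ℕ))
  have hp0 : (0 : ℝ) < ((p : ℕ) : ℝ) ^ (-(1 / 2) : ℝ) := by
    have : (0 : ℝ) < ((p : ℕ) : ℝ) := by exact_mod_cast p.2.pos
    positivity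
  have hval' : ∀ ψ : 𝓞 E →+* ZMod (p : ℕ),
      |α (ZMod (p : ℕ)) (ψ.comp (algebraMap (𝓞 K) (𝓞 E))) - ((n : ℝ) +
        δ (ZMod (p : ℕ)) (ψ.comp (algebraMap (𝓞 K) (𝓞 E))))| ≤
          |B| * ((p : ℕ) : ℝ) ^ (-(1 / 2) : ℝ) := by
    intro ψ
    have h4 := h3 (ψ.comp (algebraMap (𝓞 K) (𝓞 E)))
    rw [not_not] at h4
    have h5 : (ψ.comp (algebraMap (𝓞 K) (𝓞 E))) c ≠ 0 := fun h0 => h4 h0
    have h8 := hasy (ZMod (p : ℕ)) _ h5
    rw [ZMod.card] at h8
    have h10 := mul_le_mul_of_nonneg_right (h8.trans (le_abs_self B)) hp0.le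
    rw [mul_assoc, mul_comm (Real.sqrt _), sqrt_rpow, mul_one] at h10
    exact h10
  have e1 : ∀ β : ∀ (κ : Type) [Field κ], (𝓞 K →+* κ) → ℝ, sm R E β (ZMod (p : ℕ)) =
      ∑ ψ : 𝓞 E →+* ZMod (p : ℕ), β (ZMod (p : ℕ)) (ψ.comp (algebraMap (𝓞 K) (𝓞 E))) := by
    intro β
    unfold sm
    rw [finsum_eq_sum_of_fintype]
    refine Finset.sum_congr rfl fun ψ _ => ?_
    exact if_pos (h2 _)
  have e2 : ((-sm R E α (ZMod (p : ℕ)) : ℝ) : ℂ) + cmb (fun j => L' j) a' p =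
      (((-sm R E δ (ZMod (p : ℕ)) : ℝ) : ℂ) + cmb (fun j => L j) a p) -
      ((∑ ψ : 𝓞 E →+* ZMod (p : ℕ), (α (ZMod (p : ℕ)) (ψ.comp (algebraMap (𝓞 K) (𝓞 E))) -
        ((n : ℝ) + δ (ZMod (p : ℕ)) (ψ.comp (algebraMap (𝓞 K) (𝓞 E))))) : ℝ) : ℂ) := by
    rw [hcmb, e1, e1, Finset.sum_sub_distrib, Finset.sum_add_distrib, Finset.sum_const,
      Finset.card_univ, nsmul_eq_mul, Nat.card_eq_fintype_card]
    push_cast
    ring
  rw [e2]
  refine (norm_sub_le _ _).trans ?_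
  rw [add_mul]
  refine add_le_add h1 ?_
  rw [Complex.norm_real, Real.norm_eq_abs]
  refine (Finset.abs_sum_le_sum_abs _ _).trans ?_
  refine (Finset.sum_le_card_nsmul _ _ _ fun ψ _ => hval' ψ).trans ?_
  rw [nsmul_eq_mul, Finset.card_univ, mul_assoc]
  refine mul_le_mul_of_nonneg_right ?_ (by positivity)
  have h11 := H332.PIT.hc_cast_le (K := E) p.2
  rwa [Nat.card_eq_fintype_card] at h11

end

end Pool.Agent.Q11.PB
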