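import Pool.Agent.Q11.PB.Key

/-!
# The poles of Euler products over the closed points of arithmetic schemes
-/

set_option autoImplicit false
set_option maxHeartbeats 400000

namespace Pool.Agent.Q11.PB

open NumberField IsDedekindDomain Filter Topology
open Pool.Agent.H126R3 (Qc Qc_pos)
open Pool.Agent.W385.CP
open Pool.Agent.W353.FB (Fibration)
open Pool.Agent.Y707.PH (Off Bf mp Ys md Few hasProd_LY hasSum_AcY mem_Ys card_eH)
open Pool.Agent.Y707.RX (sm abs_sm cmb near_one SD SD_diff summable_bdd order_E)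

/-- a combination with the opposite coefficients -/
theorem cmb_neg {κ : Type} [Fintype κ] (L : κ → Type) [∀ j, Field (L j)]
    [∀ j, NumberField (L j)] (a : κ → ℝ) (p : Nat.Primes) :
    cmb L (fun j => -a j) p = -cmb L a p := by
  unfold cmb
  rw [← Finset.sum_neg_distrib]
  refine Finset.sum_congr rfl fun j _ => ?_
  push_cast
  ring

section
variable {K : Type} [Field K] [NumberField K] {f : Fibration K}
  {R : Finset (HeightOneSpectrum (𝓞 K))} {F : Type} [Field F] [NumberField F] [Algebra K F]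

/-- **The pole engine.**  `T` are the traces of the powers of the Frobenius at the closed points, of
weight `w`; the sums over the points of the base over a finite field with `q` elements are
`q ^ {m + j}` times the sum of the bounded values `W`; the values `W` are nearly a combination of the
numbers of the homomorphisms of rings of integers.  Then the Euler product continues to the real
half-line `[m + j + 1, ∞)`, and has a pole of order `r` at `m + j + 1`. -/
theorem pole_engine {T : MaximalSpectrum (Bf f F) → ℕ → ℂ} {w Ct C₁ C' : ℝ} {j : ℕ} {r : ℤ}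
    (hjw : (j : ℝ) ≤ w) (hCt : 0 ≤ Ct)
    (hT1 : ∀ y n, ‖T y (n + 1)‖ ≤ Ct * (((qn y : ℕ) : ℝ) ^ (n + 1)) ^ w)
    (hT0 : ∀ y, y ∉ Ys f R F → ∀ n, T y (n + 1) = 0) (hfew : Few (Ys f R F) f.m C₁)
    {W : ∀ (κ : Type) [Field κ], (𝓞 K →+* κ) → ℝ}
    (hsum : ∀ (c : Nat.Primes × ℕ) (k : Type) [Field k] [Finite k], Nat.card k = Qc c →
      ∑ᶠ ψ : Bf f F →+* k, T (ptH ψ) (eH c (ptH ψ)) =
        ((Qc c : ℕ) : ℂ) ^ (f.m + j) * ((sm R F W k : ℝ) : ℂ))
    (hW : ∀ (κ : Type) [Field κ] [Finite κ] (φ : 𝓞 K →+* κ), Off R φ → |W κ φ| ≤ C')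
    (hkey : ∃ (κ : Type) (_ : Fintype κ) (L : κ → Type) (_ : ∀ i, Field (L i))
      (_ : ∀ i, NumberField (L i)) (a : κ → ℝ) (D : ℝ), ∑ i, a i = (r : ℝ) ∧
      ∀ᶠ p : Nat.Primes in cofinite,
        haveI : Fact (p : ℕ).Prime := ⟨p.2⟩
        ‖((-sm R F W (ZMod (p : ℕ)) : ℝ) : ℂ) + cmb L a p‖ ≤
          D * ((p : ℕ) : ℝ) ^ (-(1 / 2) : ℝ)) :
    ∃ Λ : ℂ → ℂ,
      (∀ s : ℂ, (f.m : ℝ) + 1 + w < s.re →
        HasProd (fun y : Ys f R F => Complex.exp (∑' n : ℕ, T y.1 (n + 1) *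
          ((qn y.1 : ℕ) : ℂ) ^ (-((n + 1 : ℂ) * s)) / (n + 1 : ℂ))) (Λ s)) ∧
      (∀ x : ℝ, (f.m : ℝ) + j + 1 ≤ x → MeromorphicAt Λ (x : ℂ)) ∧
      meromorphicOrderAt Λ ((f.m : ℂ) + j + 1) = ((-r : ℤ) : WithTop ℤ) := by
  classical
  set d : Nat.Primes × ℕ → ℂ := fun c => Ac T c / ((Qc c : ℕ) : ℂ) ^ (f.m + j) with hd
  have hde : ∀ (c : Nat.Primes × ℕ) (k : Type) [Field k] [Finite k], Nat.card k = Qc c →
      d c = ((sm R F W k : ℝ) : ℂ) / ((c.2 + 1 : ℕ) : ℂ) := by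
    intro c k _ _ hk
    have hq : ((Qc c : ℕ) : ℂ) ^ (f.m + j) ≠ 0 :=
      pow_ne_zero _ (by exact_mod_cast (Qc_pos c).ne')
    rw [hd]
    simp only
    rw [Ac_eq (Fintype.card (Fin f.l)) (Module.finrank ℤ (𝓞 F)) T c hk, hsum c k hk]
    field_simp
  have hdb : ∀ c, ‖d c‖ ≤ Module.finrank ℤ (𝓞 F) * |C'| := by
    intro c
    rw [hde c (Fc c) (card_Fc c), norm_div, Complex.norm_real, Complex.norm_natCast,
      Real.norm_eq_abs]
    have h2 : (1 : ℝ) ≤ ((c.2 + 1 : ℕ) : ℝ) := by exact_mod_cast Nat.succ_pos _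
    exact (div_le_self (abs_nonneg _) h2).trans (abs_sm hW (Fc c))
  obtain ⟨G, hG, hGw⟩ : ∃ G : ℂ → ℂ, AnalyticAt ℂ G 1 ∧ ∀ᶠ w in 𝓝 (1 : ℂ), 1 < w.re →
      Complex.exp (SD d w) = (w - 1) ^ (-r) * Complex.exp (G w) := by
    obtain ⟨κ, hκ, L, hL, hL', a, D, hr, hk⟩ := hkey
    refine near_one (L := L) (a := fun i => -a i) hdb (D := D) ?_ (r := -r) (by
      rw [Finset.sum_neg_distrib, hr]
      push_cast
      rfl)
    filter_upwards [hk] with p hp
    have : Fact (p : ℕ).Prime := ⟨p.2⟩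
    have hk : Nat.card (ZMod (p : ℕ)) = Qc (p, 0) := by
      rw [Nat.card_zmod, Qc_zero]
    have h1 := hde (p, 0) (ZMod (p : ℕ)) hk
    rw [h1, cmb_neg]
    simp only [zero_add, Nat.cast_one, div_one]
    rw [← norm_neg]
    refine le_trans (le_of_eq ?_) hp
    congr 1
    push_cast
    ring
  have hopen : IsOpen {w : ℂ | 1 < w.re} := isOpen_lt continuous_const Complex.continuous_re
  set E' : ℂ → ℂ := fun w => if 1 < w.re then Complex.exp (SD d w) else
    (w - 1) ^ (-r) * Complex.exp (G w) with hE'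
  have hE1 : ∀ᶠ w in 𝓝 (1 : ℂ), E' w = (w - 1) ^ (-r) * Complex.exp (G w) := by
    filter_upwards [hGw] with w hw
    rw [hE']
    simp only
    split_ifs with h
    · exact hw h
    · rfl
  obtain ⟨hm1, ho1⟩ := order_E hG (-r) hE1
  have hm : ∀ x : ℝ, 1 ≤ x → MeromorphicAt E' (x : ℂ) := by
    intro x hx
    rcases hx.eq_or_lt with h | h
    · rw [← h, Complex.ofReal_one]
      exact hm1
    · have h4 : {w : ℂ | 1 < w.re} ∈ 𝓝 (x : ℂ) := hopen.mem_nhds (by
        rw [Set.mem_ofPred_eq, Complex.ofReal_re]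
        exact h)
      have h5 : AnalyticAt ℂ (fun w => Complex.exp (SD d w)) (x : ℂ) :=
        (SD_diff hdb).cexp.analyticAt h4
      refine h5.meromorphicAt.congr ?_
      filter_upwards [mem_nhdsWithin_of_mem_nhds h4] with w hw
      rw [hE']
      exact (if_pos hw).symm
  refine ⟨E' ∘ (· - ((f.m + j : ℕ) : ℂ)), fun s hs => ?_, fun x hx => ?_, ?_⟩
  · have h1 := hasProd_LY (B := Bf f F) (Fintype.card (Fin f.l)) (Module.finrank ℤ (𝓞 F))
      (Y := Ys f R F) (n := f.m) (C1 := C₁) (tr := T) (w := w) (Ct := Ct) hCt hT1 hT0 hfew s hs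
    have h2 : 1 < (s - ((f.m + j : ℕ) : ℂ)).re := by
      rw [Complex.sub_re, Complex.natCast_re]
      push_cast
      linarith
    rw [Function.comp_apply, hE']
    simp only
    rw [if_pos h2]
    refine Eq.mp (congrArg (fun u => HasProd (fun y : Ys f R F => Complex.exp
      (∑' n : ℕ, T y.1 (n + 1) * ((qn y.1 : ℕ) : ℂ) ^ (-((n + 1 : ℂ) * s)) / (n + 1 : ℂ))) u) ?_) h1
    congr 1
    unfold SD
    refine tsum_congr fun c => ?_
    have hq : ((Qc c : ℕ) : ℂ) ≠ 0 := by exact_mod_cast (Qc_pos c).ne'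
    rw [hd]
    simp only
    rw [neg_sub, sub_eq_add_neg, Complex.cpow_add _ _ hq, Complex.cpow_natCast]
    field_simp
  · rw [meromorphicAt_comp_sub_const_iff_meromorphicAt]
    have h4 := hm (x - (f.m + j : ℕ)) (by push_cast; linarith)
    rwa [Complex.ofReal_sub, Complex.ofReal_natCast] at h4
  · rw [meromorphicOrderAt_comp_sub_const_eq_meromorphicOrderAt]
    have e : (f.m : ℂ) + j + 1 - ((f.m + j : ℕ) : ℂ) = 1 := by
      push_cast
      ring
    rw [e, ho1]

end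

end Pool.Agent.Q11.PB
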