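import Pool.Agent.Q11.PB.Hyp

/-!
# The function `Φ₁` of the curves `Y ^ 2 = D(X) + (w + b(X)) ^ 2`
-/

set_option autoImplicit false
set_option maxHeartbeats 400000

namespace Pool.Agent.Q11.PB

open NumberField IsDedekindDomain Filter Topology Polynomial Finset
open Pool.Agent.W353.FB (Fibration)
open Pool.Agent.Y707.RX (Continues)
open Pool.Agent.Y707.PC (inc inc_ev ptE ptE_x ptE_y ptE_w nx nx_bd ringChar_of_two card_zeros
  sqrt_facts)
open Pool.Agent.Y707.DK

section
variable {K : Type} [Field K] {k l r : ℕ}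

/-- the equations `y_i ^ 2 = G_i(x)` in the variables `x, y, w` -/
noncomputable def eqs (G : Fin l → MvPolynomial (Fin k) (𝓞 K)) :
    Set (MvPolynomial (Fin (k + l + 1)) (𝓞 K)) :=
  Set.range fun i : Fin l => MvPolynomial.X (Fin.natAdd k i).castSucc ^ 2 - inc (𝓞 K) k l (G i)

/-- The family of the smooth projective models of the curves
`Y ^ 2 = D₀(X) ∏ (X - δ_j(x)) + (w + b(x, X)) ^ 2` of genus `g`, over the variety of the points
`(x, y, w)` with `y_i ^ 2 = G_i(x) ≠ 0` for which the curve is smooth. -/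
noncomputable def quadFamily (g : ℕ) (G : Fin l → MvPolynomial (Fin k) (𝓞 K)) (D₀ : (𝓞 K)[X])
    (δ : Fin r → MvPolynomial (Fin k) (𝓞 K)) (b : (MvPolynomial (Fin k) (𝓞 K))[X]) :
    Fibration K :=
  hyp g (k + 1) (eqs G) (∏ i, inc (𝓞 K) k l (G i))
    (quad D₀ δ b (inc (𝓞 K) k l) (MvPolynomial.X (Fin.last (k + l))))

variable {G : Fin l → MvPolynomial (Fin k) (𝓞 K)} {κ : Type} [Field κ]

theorem inc_pt (φ : 𝓞 K →+* κ) (z : (Fin k → κ) × (Fin l → κ) × κ)
    (p : MvPolynomial (Fin k) (𝓞 K)) :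
    MvPolynomial.eval₂Hom φ (ptE κ k l z) (inc (𝓞 K) k l p) =
      MvPolynomial.eval₂Hom φ z.1 p := by
  have hx : (fun i => ptE κ k l z (Fin.castAdd l i).castSucc) = z.1 := by
    funext i
    exact ptE_x z i
  have := congrArg (fun θ : MvPolynomial (Fin k) (𝓞 K) →+* κ => θ p)
    (inc_ev (l := l) φ (ptE κ k l z))
  rw [hx] at this
  exact this

theorem mem_eqs (φ : 𝓞 K →+* κ) (z : (Fin k → κ) × (Fin l → κ) × κ) :
    (∀ e ∈ eqs G, MvPolynomial.eval₂ φ (ptE κ k l z) e = 0) ↔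
      ∀ i, z.2.1 i ^ 2 = MvPolynomial.eval₂Hom φ z.1 (G i) := by
  have h1 : ∀ i, MvPolynomial.eval₂ φ (ptE κ k l z)
      (MvPolynomial.X (Fin.natAdd k i).castSucc ^ 2 - inc (𝓞 K) k l (G i)) =
      z.2.1 i ^ 2 - MvPolynomial.eval₂Hom φ z.1 (G i) := by
    intro i
    have e : MvPolynomial.eval₂ φ (ptE κ k l z)
        (MvPolynomial.X (Fin.natAdd k i).castSucc ^ 2 - inc (𝓞 K) k l (G i)) =
        MvPolynomial.eval₂Hom φ (ptE κ k l z)
        (MvPolynomial.X (Fin.natAdd k i).castSucc ^ 2 - inc (𝓞 K) k l (G i)) := rfl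
    rw [e, map_sub, map_pow, inc_pt, MvPolynomial.eval₂Hom_X', ptE_y]
  constructor
  · intro h i
    exact sub_eq_zero.1 ((h1 i).symm.trans (h _ ⟨i, rfl⟩))
  · rintro h _ ⟨i, rfl⟩
    refine (h1 i).trans ?_
    rw [h, sub_self]

theorem mem_prod (φ : 𝓞 K →+* κ) (z : (Fin k → κ) × (Fin l → κ) × κ) :
    MvPolynomial.eval₂ φ (ptE κ k l z) (∏ i, inc (𝓞 K) k l (G i)) ≠ 0 ↔
      ∀ i, MvPolynomial.eval₂Hom φ z.1 (G i) ≠ 0 := by
  have e : MvPolynomial.eval₂ φ (ptE κ k l z) (∏ i, inc (𝓞 K) k l (G i)) =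
      MvPolynomial.eval₂Hom φ (ptE κ k l z) (∏ i, inc (𝓞 K) k l (G i)) := rfl
  rw [e, map_prod, prod_ne_zero_iff]
  simp only [inc_pt, mem_univ, true_imp_iff]

variable {D₀ : (𝓞 K)[X]} {δ : Fin r → MvPolynomial (Fin k) (𝓞 K)}
  {b : (MvPolynomial (Fin k) (𝓞 K))[X]}

theorem quad_pt (φ : 𝓞 K →+* κ) (z : (Fin k → κ) × (Fin l → κ) × κ) :
    (quad D₀ δ b (inc (𝓞 K) k l) (MvPolynomial.X (Fin.last (k + l)))).map
      (MvPolynomial.eval₂Hom φ (ptE κ k l z)) = memberQuad D₀ δ b φ z.1 z.2.2 := by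
  have hx : (fun i => ptE κ k l z (Fin.castAdd l i).castSucc) = z.1 := by
    funext i
    exact ptE_x z i
  rw [quad_map, inc_ev, MvPolynomial.eval₂Hom_X', ptE_w, hx]
  rfl

/-- the base of the family -/
theorem set_quad (φ : 𝓞 K →+* κ) (z : (Fin k → κ) × (Fin l → κ) × κ) :
    ptE κ k l z ∈ {t : Fin (k + l + 1) → κ |
      (∀ e ∈ eqs G, MvPolynomial.eval₂ φ t e = 0) ∧ (2 : κ) ≠ 0 ∧
      MvPolynomial.eval₂ φ t (∏ i, inc (𝓞 K) k l (G i)) ≠ 0 ∧
      ((quad D₀ δ b (inc (𝓞 K) k l) (MvPolynomial.X (Fin.last (k + l)))).map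
        (MvPolynomial.eval₂Hom φ t)).Separable} ↔ z ∈ goodQuad G D₀ δ b φ := by
  have e1 := mem_eqs (G := G) φ z
  have e2 := mem_prod (G := G) φ z
  have e3 := quad_pt (l := l) (D₀ := D₀) (δ := δ) (b := b) φ z
  constructor
  · rintro ⟨h1, h2, h3, h4⟩
    rw [e3] at h4
    have h1' := e1.1 h1
    have h3' := e2.1 h3
    exact ⟨h2, fun i => ⟨h1' i, fun h0 => h3' i (by rw [← h1' i, h0, zero_pow two_ne_zero])⟩, h4⟩
  · rintro ⟨h2, h, hs⟩
    refine ⟨e1.2 fun i => (h i).1, h2, e2.2 fun i h0 => (h i).2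
      (eq_zero_of_pow_eq_zero ((h i).1.trans h0)), ?_⟩
    rw [e3]
    exact hs

theorem sumTr_quad (g : ℕ) (φ : 𝓞 K →+* κ) :
    sumTr g (k + 1) (eqs G) (∏ i, inc (𝓞 K) k l (G i))
      (quad D₀ δ b (inc (𝓞 K) k l) (MvPolynomial.X (Fin.last (k + l)))) φ =
      averageQuad G D₀ δ b φ := by
  unfold sumTr averageQuad
  congr 1
  symm
  refine finsum_mem_eq_of_bijOn (ptE κ k l) ⟨fun z hz => (set_quad φ z).2 hz,
    (ptE κ k l).injective.injOn, fun t ht => ?_⟩ fun z _ => ?_
  · obtain ⟨z, rfl⟩ := (ptE κ k l).surjective t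
    exact ⟨z, (set_quad φ z).1 ht, rfl⟩
  · rw [quad_pt]

theorem quad_inc_deg {g : ℕ} (hm : D₀.Monic) (hd : D₀.natDegree + r = 2 * g + 1)
    (hb : b.natDegree ≤ g) :
    (quad D₀ δ b (inc (𝓞 K) k l) (MvPolynomial.X (Fin.last (k + l)))).Monic ∧
    (quad D₀ δ b (inc (𝓞 K) k l) (MvPolynomial.X (Fin.last (k + l)))).natDegree = 2 * g + 1 :=
  quad_deg hm hd hb _ _

end

section
variable {K : Type} [Field K] [NumberField K] {k l r g : ℕ}
  {G : Fin l → MvPolynomial (Fin k) (𝓞 K)}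
  {D₀ : (𝓞 K)[X]} {δ : Fin r → MvPolynomial (Fin k) (𝓞 K)}
  {b : (MvPolynomial (Fin k) (𝓞 K))[X]}
  {κ : Type} [Field κ] [Fintype κ]

/-- the base has few points -/
theorem card_quad (h : IsQuadPencil g G D₀ δ b) (φ : 𝓞 K →+* κ) :
    (Nat.card ((quadFamily g G D₀ δ b).points φ) : ℝ) ≤
      2 ^ l * (Fintype.card κ : ℝ) ^ (k + 1) := by
  classical
  have hd := quad_inc_deg (l := l) (δ := δ) h.monic h.degree h.small
  have e1 : (Nat.card ((quadFamily g G D₀ δ b).points φ) : ℝ) =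
      Nat.card (goodQuad G D₀ δ b φ) := by
    congr 1
    have e2 := points_hyp (m := k + 1) (V := eqs G) (h := ∏ i, inc (𝓞 K) k l (G i)) hd.1 hd.2 φ
    refine (Nat.card_congr ((ptE κ k l).subtypeEquiv fun z => ?_)).symm
    have e3 := set_quad (G := G) (D₀ := D₀) (δ := δ) (b := b) φ z
    rw [← e2] at e3
    exact e3.symm
  rw [e1]
  by_cases h2 : ringChar κ = 2
  · have e : goodQuad G D₀ δ b φ = ∅ := by
      refine Set.eq_empty_iff_forall_notMem.2 fun z hz => hz.1 ?_
      have h3 : ((ringChar κ : ℕ) : κ) = 0 := ringChar.Nat.cast_ringChar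
      rw [h2] at h3
      exact_mod_cast h3
    rw [e]
    simp
  · have h1 : (Nat.card (goodQuad G D₀ δ b φ) : ℝ) = ∑ᶠ t ∈ goodQuad G D₀ δ b φ, (1 : ℝ) := by
      rw [finsum_mem_def, finsum_eq_sum_of_fintype]
      simp only [Set.indicator_apply]
      rw [sum_boole, Nat.card_eq_fintype_card]
      congr 1
      rw [← Set.toFinset_card]
      congr 1
      ext t
      simp
    have h3 := sum_good2 (G := G) (D₀ := D₀) (δ := δ) (b := b) φ h2 (fun _ _ => 1)
    rw [h1, h3]
    have h4 : ∀ x : Fin k → κ, (if ∀ i, MvPolynomial.eval₂Hom φ x (G i) ≠ 0 then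
        nx G φ x * ∑ w : κ, (if (memberQuad D₀ δ b φ x w).Separable then (1 : ℝ) else 0)
        else 0) ≤ 2 ^ l * Fintype.card κ := by
      intro x
      split_ifs
      · refine mul_le_mul (nx_bd φ x).2 ?_ (sum_nonneg fun w _ => by split_ifs <;> norm_num)
          (by positivity)
        refine (sum_le_sum (g := fun _ => (1 : ℝ)) fun w _ => ?_).trans ?_
        · split_ifs
          · exact le_rfl
          · exact zero_le_one
        · simp
      · positivity
    refine (sum_le_sum fun x _ => h4 x).trans ?_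
    rw [sum_const, card_univ, Fintype.card_fun, Fintype.card_fin, nsmul_eq_mul, pow_succ]
    push_cast
    linarith

/-- the averages are bounded, for all primes -/
theorem averageQuad_bound (h : IsQuadPencil g G D₀ δ b) (φ : 𝓞 K →+* κ) :
    |averageQuad G D₀ δ b φ| ≤
      2 ^ l * ((2 * g + 2) + (qdisc g D₀ δ b).natDegree * (2 * g)) := by
  classical
  have hq : (0 : ℝ) < Fintype.card κ := by exact_mod_cast Fintype.card_pos (α := κ)
  by_cases h2 : ringChar κ = 2
  · have e : goodQuad G D₀ δ b φ = ∅ := by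
      refine Set.eq_empty_iff_forall_notMem.2 fun z hz => hz.1 ?_
      have h3 : ((ringChar κ : ℕ) : κ) = 0 := ringChar.Nat.cast_ringChar
      rw [h2] at h3
      exact_mod_cast h3
    unfold averageQuad
    rw [e, finsum_mem_empty, mul_zero, abs_zero]
    positivity
  obtain ⟨hr1, hr2, hr3⟩ := sqrt_facts κ
  have hx : ∀ x : Fin k → κ, |∑ w : κ, (if (memberQuad D₀ δ b φ x w).Separable then
      traceOne (memberQuad D₀ δ b φ x w) else 0)| ≤
      ((2 * g + 2) + (qdisc g D₀ δ b).natDegree * (2 * g)) * Fintype.card κ := by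
    intro x
    set Δ := (qdisc g D₀ δ b).map (MvPolynomial.eval₂Hom φ x) with hΔ
    have hsep : ∀ w, (memberQuad D₀ δ b φ x w).Separable ↔ Δ.eval w ≠ 0 := by
      intro w
      have hd := quad_deg (δ := δ) h.monic h.degree h.small (MvPolynomial.eval₂Hom φ x) w
      rw [hΔ, qdisc_eval]
      exact (rs_ne_iff hd.1 hd.2).symm
    by_cases hz : Δ = 0
    · rw [sum_eq_zero fun w _ => ?_, abs_zero]
      · positivity
      · rw [if_neg]
        rw [hsep, hz, eval_zero]
        simp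
    have e1 : ∑ w : κ, (if (memberQuad D₀ δ b φ x w).Separable then
        traceOne (memberQuad D₀ δ b φ x w) else 0) =
        ∑ w : κ, traceOne (memberQuad D₀ δ b φ x w) -
        ∑ w : κ, (if Δ.eval w = 0 then traceOne (memberQuad D₀ δ b φ x w) else 0) := by
      rw [← sum_sub_distrib]
      refine sum_congr rfl fun w _ => ?_
      by_cases hw : Δ.eval w = 0
      · rw [if_neg (fun h' => (hsep w).1 h' hw), if_pos hw, sub_self]
      · rw [if_pos ((hsep w).2 hw), if_neg hw, sub_zero]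
    have h3 : |∑ w : κ, traceOne (memberQuad D₀ δ b φ x w)| ≤ (2 * g + 2) * Fintype.card κ := by
      rw [sum_w h2, _root_.abs_mul, Nat.abs_cast, mul_comm]
      refine mul_le_mul_of_nonneg_right ?_ hq.le
      have hd := dpoly_deg (δ := δ) h.monic h.degree (MvPolynomial.eval₂Hom φ x)
      have h4 := card_zeros hd.1.ne_zero
      rw [hd.2] at h4
      push_cast at h4
      have h5 : (0 : ℝ) ≤ ((univ.filter fun t =>
        (dpoly D₀ δ (MvPolynomial.eval₂Hom φ x)).eval t = 0).card : ℝ) := Nat.cast_nonneg _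
      rw [abs_le]
      constructor <;> linarith
    have h4 : |∑ w : κ, (if Δ.eval w = 0 then traceOne (memberQuad D₀ δ b φ x w) else 0)| ≤
        (qdisc g D₀ δ b).natDegree * (2 * g) * Fintype.card κ := by
      rw [← sum_filter]
      refine (abs_sum_le_sum_abs _ _).trans
        ((sum_le_sum fun w _ => trQ_abs h h2 φ x w).trans ?_)
      rw [sum_const, nsmul_eq_mul]
      have h5 := card_zeros hz
      have h6 : (Δ.natDegree : ℝ) ≤ (qdisc g D₀ δ b).natDegree := by
        exact_mod_cast natDegree_map_le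
      have h7 : Real.sqrt (Fintype.card κ) ≤ Fintype.card κ := hr3
      calc ((univ.filter fun w => Δ.eval w = 0).card : ℝ) *
            (2 * g * Real.sqrt (Fintype.card κ))
          ≤ (qdisc g D₀ δ b).natDegree * (2 * g * Fintype.card κ) := by
            refine mul_le_mul (h5.trans h6) ?_ (by positivity) (by positivity)
            exact mul_le_mul_of_nonneg_left h7 (by positivity)
        _ = _ := by ring
    rw [e1]
    refine (abs_sub _ _).trans ((add_le_add h3 h4).trans (le_of_eq ?_))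
    ring
  have hsum : |∑ᶠ P ∈ goodQuad G D₀ δ b φ, traceOne (memberQuad D₀ δ b φ P.1 P.2.2)| ≤
      2 ^ l * ((2 * g + 2) + (qdisc g D₀ δ b).natDegree * (2 * g)) *
        (Fintype.card κ : ℝ) ^ (k + 1) := by
    rw [sum_good2 φ h2 fun x w => traceOne (memberQuad D₀ δ b φ x w)]
    have h4 : ∀ x : Fin k → κ, |if ∀ i, MvPolynomial.eval₂Hom φ x (G i) ≠ 0 then
        nx G φ x * ∑ w : κ, (if (memberQuad D₀ δ b φ x w).Separable then
          traceOne (memberQuad D₀ δ b φ x w) else 0) else 0| ≤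
        2 ^ l * (((2 * g + 2) + (qdisc g D₀ δ b).natDegree * (2 * g)) * Fintype.card κ) := by
      intro x
      split_ifs
      · rw [_root_.abs_mul, abs_of_nonneg (nx_bd φ x).1]
        exact mul_le_mul (nx_bd φ x).2 (hx x) (abs_nonneg _) (by positivity)
      · rw [abs_zero]
        positivity
    refine (abs_sum_le_sum_abs _ _).trans ((sum_le_sum fun x _ => h4 x).trans ?_)
    rw [sum_const, card_univ, Fintype.card_fun, Fintype.card_fin, nsmul_eq_mul, pow_succ]
    push_cast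
    linarith
  unfold averageQuad
  have hqk : (0 : ℝ) < (Fintype.card κ : ℝ) ^ (k + 1) := by positivity
  rw [Nat.card_eq_fintype_card, _root_.abs_mul, abs_of_pos (inv_pos.2 hqk), inv_mul_le_iff₀ hqk]
  refine hsum.trans (le_of_eq ?_)
  ring

end

section
variable {K : Type} [Field K] [NumberField K] {k l r g : ℕ}
  {G : Fin l → MvPolynomial (Fin k) (𝓞 K)}
  {D₀ : (𝓞 K)[X]} {δ : Fin r → MvPolynomial (Fin k) (𝓞 K)}
  {b : (MvPolynomial (Fin k) (𝓞 K))[X]}

/-- **The analytic side.** -/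
theorem quad_continues (h : IsQuadPencil g G D₀ δ b)
    (R : Finset (HeightOneSpectrum (𝓞 K))) (E : IntermediateField K (AlgebraicClosure K))
    [NumberField E] : Continues (quadFamily g G D₀ δ b) R E (quadRank r D₀ E) := by
  obtain ⟨B, c, hB, hc, hasy⟩ := averageQuad_asy h
  have hd := quad_inc_deg (l := l) (δ := δ) h.monic h.degree h.small
  have h1 := continues_hyp (m := k + 1) (V := eqs G) (h := ∏ i, inc (𝓞 K) k l (G i)) hd.1 hd.2
    (C₁ := 2 ^ l) (C₂ := 2 ^ l * ((2 * g + 2) + (qdisc g D₀ δ b).natDegree * (2 * g)))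
    (fun κ _ _ φ => card_quad h φ) (fun κ _ _ φ => by
      rw [sumTr_quad]
      exact averageQuad_bound h φ) ((r : ℤ) - 1) h.monic h.separable (B := B) hc
    (fun κ _ _ φ hφ => by
      rw [sumTr_quad]
      refine le_trans (le_of_eq ?_) (hasy κ φ hφ)
      congr 2
      push_cast
      ring) R E
  have h2 : ((r : ℤ) - 1 + numFactors (D₀.map ((algebraMap K E).comp (algebraMap (𝓞 K) K)))) =
      (quadRank r D₀ E : ℤ) := by
    have h4 := rank_pos h E
    unfold quadRank
    push_cast [Nat.cast_sub h4]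
    ring
  rw [h2] at h1
  exact h1

end

end Pool.Agent.Q11.PB
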