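import Pool.Agent.Q11.PB.Pole
import Pool.Agent.Q11.PB.Quad
import Pool.Agent.Y707.DP.Fin

/-!
# The poles of the L-functions of `H²(C × C)`
-/

set_option autoImplicit false
set_option maxHeartbeats 400000

namespace Pool.Agent.Q11.PB

open NumberField IsDedekindDomain Filter Topology
open Pool.Agent.H126R3 (Qc Qc_pos)
open Pool.Agent.W385.CP
open Pool.Agent.W353.FB (Fibration)
open Pool.Agent.Y707.PH (Off Bf mp Ys md Few hasProd_LY mem_Ys card_eH tr eg eg_spec eg_eq IsEigen
  comp_mp Pts IsLocal exp_log)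
open Pool.Agent.Y707.RX (IsSmoothFamily sm cmb tr_ptH tr_norm few isLocal_eg eigen_md)

/-- The eigenvalues of the Frobenius on `H²(C × C)`, for a smooth projective curve `C` over the field with
`q` elements: `H²(C × C)` is the sum of `H²(C) ⊗ H⁰(C)`, `H⁰(C) ⊗ H²(C)` and `H¹(C) ⊗ H¹(C)`, so they
are `q`, `q` and the products of two of the eigenvalues `γ` on `H¹(C)`. -/
noncomputable def square (q : ℕ) (γ : Multiset ℂ) : Multiset ℂ :=
  {(q : ℂ), (q : ℂ)} + (γ ×ˢ γ).map fun z => z.1 * z.2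

theorem sum_product (s t : Multiset ℂ) (u v : ℂ → ℂ) :
    ((s ×ˢ t).map fun z => u z.1 * v z.2).sum = (s.map u).sum * (t.map v).sum := by
  induction s using Multiset.induction_on with
  | empty => simp
  | cons a s ih =>
    rw [Multiset.cons_product, Multiset.map_add, Multiset.sum_add, ih, Multiset.map_cons,
      Multiset.sum_cons, add_mul, Multiset.map_map]
    congr 1
    simp only [Function.comp_def]
    rw [Multiset.sum_map_mul_left]

theorem square_pow (q : ℕ) (γ : Multiset ℂ) (n : ℕ) :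
    ((square q γ).map fun z => z ^ n).sum = 2 * (q : ℂ) ^ n + ((γ.map fun z => z ^ n).sum) ^ 2 := by
  unfold square
  rw [Multiset.map_add, Multiset.sum_add, Multiset.map_map]
  have h1 : ((fun z : ℂ => z ^ n) ∘ fun z : ℂ × ℂ => z.1 * z.2) =
      fun z : ℂ × ℂ => (fun y : ℂ => y ^ n) z.1 * (fun y : ℂ => y ^ n) z.2 := by
    funext z
    simp only [Function.comp_apply, mul_pow]
  have h2 : (Multiset.map ((fun z : ℂ => z ^ n) ∘ fun z : ℂ × ℂ => z.1 * z.2) (γ ×ˢ γ)).sum =
      (γ.map fun z => z ^ n).sum * (γ.map fun z => z ^ n).sum := by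
    rw [h1]
    exact sum_product γ γ (fun y => y ^ n) (fun y => y ^ n)
  rw [h2]
  simp only [Multiset.insert_eq_cons, Multiset.map_cons, Multiset.map_singleton,
    Multiset.sum_cons, Multiset.sum_singleton]
  ring

section
variable {K : Type} [Field K] [NumberField K]

/-- For the generic fibre `X` of the family `f` of curves over `F(𝒴)`, the L-function of `H²(X × X)` has a
pole of order `k` at `s = 1 + dim 𝒴 = m + 2`: for the eigenvalues `β y` of the Frobenius on `H¹` of the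
fibres over the closed points `y` of the model of `𝒴_F` over `𝓞_F` without the fibres over `R`, the Euler
product of `∏ (1 - z q_y^{-s})⁻¹`, over the eigenvalues `z` on `H²` of the squares of the fibres, converges
absolutely for `Re s > m + 2`, to the function `Λ`, and `Λ` is meromorphic at `m + 2`, of order `-k`. -/
def HasSquarePole (f : Fibration K) (R : Finset (HeightOneSpectrum (𝓞 K))) (F : Type) [Field F]
    [NumberField F] [Algebra K F] (k : ℤ) : Prop :=
  ∃ (β : Pts f R F → Multiset ℂ) (Λ : ℂ → ℂ), IsLocal f R F β ∧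
    (∀ s : ℂ, (f.m : ℝ) + 2 < s.re →
      HasProd (fun y : Pts f R F =>
        ((square (Nat.card (MvPolynomial (Fin f.l) (𝓞 F) ⧸ y.1.asIdeal)) (β y)).map fun z =>
          (1 - z * ((Nat.card (MvPolynomial (Fin f.l) (𝓞 F) ⧸ y.1.asIdeal) : ℕ) : ℂ) ^
            (-s))⁻¹).prod) (Λ s)) ∧
    MeromorphicAt Λ ((f.m : ℂ) + 2) ∧ meromorphicOrderAt Λ ((f.m : ℂ) + 2) = ((-k : ℤ) : WithTop ℤ)

variable {f : Fibration K} {R : Finset (HeightOneSpectrum (𝓞 K))} {C : ℝ}

variable (f) in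
/-- the fibre average of the traces on `H²` of the squares -/
noncomputable def sqAv {κ : Type} [Field κ] (φ : 𝓞 K →+* κ) : ℝ :=
  ((Nat.card κ : ℝ) ^ f.m)⁻¹ * ∑ᶠ t ∈ f.points φ,
    (2 * (Nat.card κ : ℝ) + (eg f.eqFibre f.r (MvPolynomial.eval₂Hom φ t)).sum.re ^ 2)

variable (f) in
/-- the normalized average -/
noncomputable def sqW (κ : Type) [Field κ] (φ : 𝓞 K →+* κ) : ℝ :=
  (Nat.card κ : ℝ)⁻¹ * sqAv f φ

variable {F : Type} [Field F] [NumberField F] [Algebra K F]

open Classical in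
variable (f R F) in
/-- the traces on `H²` of the squares -/
noncomputable def tr2 (y : MaximalSpectrum (Bf f F)) (n : ℕ) : ℂ :=
  if y ∈ Ys f R F then 2 * ((qn y : ℕ) : ℂ) ^ n + tr f R F y n ^ 2 else 0

theorem sum_tr2 (hf : IsSmoothFamily f R C) {k : Type} [Field k] [Finite k] {c : Nat.Primes × ℕ}
    (hk : Nat.card k = Qc c) :
    ∑ᶠ ψ : Bf f F →+* k, tr2 f R F (ptH ψ) (eH c (ptH ψ)) =
      ((Qc c : ℕ) : ℂ) ^ (f.m + 1) * ((sm R F (sqW f) k : ℝ) : ℂ) := by
  classical
  have h0 := f.one_le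
  have hfin := (hom_int F k).1
  let _ := Fintype.ofFinite (𝓞 F →+* k)
  let _ := Fintype.ofFinite k
  have hsm : ((Qc c : ℕ) : ℂ) ^ (f.m + 1) * ((sm R F (sqW f) k : ℝ) : ℂ) =
      ∑ φ : 𝓞 F →+* k, ((if Off R (φ.comp (algebraMap (𝓞 K) (𝓞 F))) then
        ∑ t : Fin f.l → k, (if t ∈ f.points (φ.comp (algebraMap (𝓞 K) (𝓞 F))) then
          (2 * (Nat.card k : ℝ) + (eg f.eqFibre f.r (MvPolynomial.eval₂Hom
            (φ.comp (algebraMap (𝓞 K) (𝓞 F))) t)).sum.re ^ 2) else 0) else 0 : ℝ) : ℂ) := by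
    unfold sm
    rw [finsum_eq_sum_of_fintype, Complex.ofReal_sum, Finset.mul_sum]
    refine Finset.sum_congr rfl fun φ _ => ?_
    split_ifs with h
    · unfold sqW sqAv
      have h1 : (∑ᶠ t ∈ f.points (φ.comp (algebraMap (𝓞 K) (𝓞 F))),
          (2 * (Nat.card k : ℝ) + (eg f.eqFibre f.r (MvPolynomial.eval₂Hom
            (φ.comp (algebraMap (𝓞 K) (𝓞 F))) t)).sum.re ^ 2)) =
          ∑ t : Fin f.l → k, (if t ∈ f.points (φ.comp (algebraMap (𝓞 K) (𝓞 F))) then
          (2 * (Nat.card k : ℝ) + (eg f.eqFibre f.r (MvPolynomial.eval₂Hom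
            (φ.comp (algebraMap (𝓞 K) (𝓞 F))) t)).sum.re ^ 2) else 0) := by
        rw [← finsum_eq_sum_of_fintype]
        refine finsum_congr fun t => ?_
        by_cases h' : t ∈ f.points (φ.comp (algebraMap (𝓞 K) (𝓞 F)))
        · rw [if_pos h']
          simp [h']
        · rw [if_neg h']
          simp [h']
      rw [h1, hk]
      have hq : ((Qc c : ℕ) : ℂ) ≠ 0 := by exact_mod_cast (Qc_pos c).ne'
      push_cast
      rw [pow_succ]
      field_simp
    · rw [Complex.ofReal_zero, mul_zero]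
  rw [hsm, ← finsum_comp_equiv (homE F (Fin f.l) k).symm, finsum_eq_sum_of_fintype,
    Fintype.sum_prod_type]
  refine Finset.sum_congr rfl fun φ _ => ?_
  set φ' := φ.comp (algebraMap (𝓞 K) (𝓞 F)) with hφ'
  have hC : ∀ t : Fin f.l → k, (((homE F (Fin f.l) k).symm (φ, t)).comp MvPolynomial.C).comp
      (algebraMap (𝓞 K) (𝓞 F)) = φ' := by
    intro t
    have : ((homE F (Fin f.l) k).symm (φ, t)).comp MvPolynomial.C = φ :=
      congrArg Prod.fst ((homE F (Fin f.l) k).apply_symm_apply (φ, t))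
    rw [this]
  have hX : ∀ t : Fin f.l → k, (fun i => ((homE F (Fin f.l) k).symm (φ, t)) (MvPolynomial.X i)) =
      t := by
    intro t
    exact congrArg Prod.snd ((homE F (Fin f.l) k).apply_symm_apply (φ, t))
  have hmem : ∀ t : Fin f.l → k, ptH ((homE F (Fin f.l) k).symm (φ, t)) ∈ Ys f R F ↔
      t ∈ f.points φ' ∧ Off R φ' := by
    intro t
    rw [mem_Ys, hC, hX]
  have htr : ∀ t : Fin f.l → k, tr2 f R F (ptH ((homE F (Fin f.l) k).symm (φ, t)))
      (eH c (ptH ((homE F (Fin f.l) k).symm (φ, t)))) =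
      if t ∈ f.points φ' ∧ Off R φ' then
        ((2 * (Nat.card k : ℝ) +
          (eg f.eqFibre f.r (MvPolynomial.eval₂Hom φ' t)).sum.re ^ 2 : ℝ) : ℂ) else 0 := by
    intro t
    by_cases h : t ∈ f.points φ' ∧ Off R φ'
    · have h9 := tr_ptH (F := F) hf hk _ ((hmem t).2 h)
      rw [comp_mp, hC, hX] at h9
      rw [if_pos h]
      unfold tr2
      rw [if_pos ((hmem t).2 h), h9]
      obtain ⟨γ, h1, -⟩ := (hf k φ' h.2).2 t h.1
      have h10 := (eg_spec ⟨γ, h1⟩).sum_re (by omega)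
      have h11 : ((qn (ptH ((homE F (Fin f.l) k).symm (φ, t))) : ℕ) : ℂ) ^
          eH c (ptH ((homE F (Fin f.l) k).symm (φ, t))) = ((Nat.card k : ℕ) : ℂ) := by
        have h12 : Nat.card k = qn (ptH ((homE F (Fin f.l) k).symm (φ, t))) ^
            eH c (ptH ((homE F (Fin f.l) k).symm (φ, t))) := card_eH hk _
        rw [h12]
        push_cast
        rfl
      rw [h11]
      push_cast
      rw [← h10]
    · rw [if_neg h]
      unfold tr2
      rw [if_neg fun h' => h ((hmem t).1 h')]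
  rw [Finset.sum_congr rfl fun t _ => htr t]
  by_cases hoff : Off R φ'
  · rw [if_pos hoff, Complex.ofReal_sum]
    refine Finset.sum_congr rfl fun t _ => ?_
    by_cases h : t ∈ f.points φ'
    · rw [if_pos h, if_pos ⟨h, hoff⟩]
    · rw [if_neg h, if_neg fun h' => h h'.1, Complex.ofReal_zero]
  · rw [if_neg hoff, Complex.ofReal_zero]
    refine Finset.sum_eq_zero fun t _ => ?_
    rw [if_neg fun h' => hoff h'.2]

/-- **The pole.** -/
theorem square_pole (hf : IsSmoothFamily f R C) {C' : ℝ}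
    (hW : ∀ (κ : Type) [Field κ] [Finite κ] (φ : 𝓞 K →+* κ), Off R φ → |sqW f κ φ| ≤ C')
    {r : ℤ}
    (hkey : ∃ (κ : Type) (_ : Fintype κ) (L : κ → Type) (_ : ∀ i, Field (L i))
      (_ : ∀ i, NumberField (L i)) (a : κ → ℝ) (D : ℝ), ∑ i, a i = (r : ℝ) ∧
      ∀ᶠ p : Nat.Primes in cofinite,
        haveI : Fact (p : ℕ).Prime := ⟨p.2⟩
        ‖((-sm R F (sqW f) (ZMod (p : ℕ)) : ℝ) : ℂ) + cmb L a p‖ ≤
          D * ((p : ℕ) : ℝ) ^ (-(1 / 2) : ℝ)) : HasSquarePole f R F r := by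
  classical
  have hT1 : ∀ y n, ‖tr2 f R F y (n + 1)‖ ≤
      (2 + C ^ 2) * (((qn y : ℕ) : ℝ) ^ (n + 1)) ^ (1 : ℝ) := by
    intro y n
    rw [Real.rpow_one]
    unfold tr2
    split_ifs with h
    · have h1 := tr_norm (F := F) hf y n
      have hq : (0 : ℝ) ≤ ((qn y : ℕ) : ℝ) ^ (n + 1) := by positivity
      refine (norm_add_le _ _).trans ?_
      rw [norm_mul, norm_pow, norm_pow, Complex.norm_natCast, RCLike.norm_ofNat, add_mul]
      refine add_le_add le_rfl ?_
      have h2 := pow_le_pow_left₀ (norm_nonneg _) h1 2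
      refine h2.trans (le_of_eq ?_)
      rw [mul_pow, sq_abs, ← Real.sqrt_eq_rpow, Real.sq_sqrt hq]
    · rw [norm_zero]
      positivity
  have hT0 : ∀ y, y ∉ Ys f R F → ∀ n, tr2 f R F y (n + 1) = 0 := by
    intro y hy n
    unfold tr2
    rw [if_neg hy]
  obtain ⟨Λ, h1, h2, h3⟩ := pole_engine (f := f) (R := R) (F := F) (T := tr2 f R F) (w := 1)
    (j := 1) (Ct := 2 + C ^ 2) (C₁ := Module.finrank ℤ (𝓞 F) * |C|) (C' := C') (r := r)
    (by norm_num) (by positivity) hT1 hT0 (few hf) (W := sqW f)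
    (fun c k _ _ hk => sum_tr2 hf hk) hW hkey
  refine ⟨fun y => eg f.eqFibre f.r (md f F y.1), Λ, isLocal_eg hf, fun s hs => ?_, ?_, ?_⟩
  · have h4 := h1 s (by linarith)
    refine Eq.mp (congrArg (fun g => HasProd g _) (funext fun y => ?_)) h4
    have hq1 : (1 : ℝ) < ((qn y.1 : ℕ) : ℝ) := by
      have := two_le_qn y.1
      exact_mod_cast (by omega : 1 < qn y.1)
    have hq0 : (0 : ℝ) < ((qn y.1 : ℕ) : ℝ) := by linarith
    have hnorm : ∀ z ∈ square (qn y.1) (eg f.eqFibre f.r (md f F y.1)),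
        ‖z‖ = ((qn y.1 : ℕ) : ℝ) := by
      intro z hz
      unfold square at hz
      rw [Multiset.mem_add] at hz
      rcases hz with hz | hz
      · simp only [Multiset.insert_eq_cons, Multiset.mem_cons, Multiset.mem_singleton,
          or_self] at hz
        rw [hz, Complex.norm_natCast]
      · obtain ⟨⟨u, v⟩, huv, rfl⟩ := Multiset.mem_map.1 hz
        rw [Multiset.mem_product] at huv
        have e1 := (eigen_md (F := F) hf y.2).1.norm huv.1
        have e2 := (eigen_md (F := F) hf y.2).1.norm huv.2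
        simp only at e1 e2
        show ‖u * v‖ = _
        rw [norm_mul, e1, e2]
        change ((qn y.1 : ℕ) : ℝ) ^ (((1 : ℕ) : ℝ) / 2) * ((qn y.1 : ℕ) : ℝ) ^ (((1 : ℕ) : ℝ) / 2) = _
        rw [← Real.rpow_add hq0]
        norm_num
    have h2 : ∀ z ∈ square (qn y.1) (eg f.eqFibre f.r (md f F y.1)),
        ‖z * ((qn y.1 : ℕ) : ℂ) ^ (-s)‖ < 1 := by
      intro z hz
      rw [norm_mul, Complex.norm_natCast_cpow_of_pos (by have := two_le_qn y.1; omega),
        hnorm z hz, Complex.neg_re]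
      nth_rewrite 1 [← Real.rpow_one ((qn y.1 : ℕ) : ℝ)]
      rw [← Real.rpow_add hq0]
      refine Real.rpow_lt_one_of_one_lt_of_neg hq1 ?_
      have : (0 : ℝ) ≤ f.m := Nat.cast_nonneg _
      linarith
    have h3 := exp_log _ _ h2
    change Complex.exp _ = (Multiset.map (fun z => (1 - z * ((qn y.1 : ℕ) : ℂ) ^ (-s))⁻¹)
      (square (qn y.1) (eg f.eqFibre f.r (md f F y.1)))).prod
    rw [← h3]
    congr 1
    refine tsum_congr fun n => ?_
    have hy : y.1 ∈ Ys f R F := y.2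
    unfold tr2 tr
    rw [if_pos hy, if_pos hy, square_pow, ← Complex.cpow_nat_mul]
    congr 3
    push_cast
    ring
  · have h4 := h2 ((f.m : ℝ) + 2) (by push_cast; linarith)
    push_cast at h4
    exact h4
  · have e : (f.m : ℂ) + ((1 : ℕ) : ℂ) + 1 = (f.m : ℂ) + 2 := by
      push_cast
      ring
    rw [e] at h3
    exact h3

end

end Pool.Agent.Q11.PB
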