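import Pool.Agent.Q11.PB.Sqr

/-!
# The poles of the L-functions of `H²(C × C)` for the curves `Y ^ 2 = D_n(X, a) + w`
-/

set_option autoImplicit false
set_option maxHeartbeats 400000

namespace Pool.Agent.Q11.PB

open NumberField IsDedekindDomain Filter Topology Polynomial Finset
open Pool.Agent.W353.FB (Fibration)
open Pool.Agent.Y707.PH (Off eg eg_spec eg_eq IsEigen)
open Pool.Agent.Y707.RX (IsSmoothFamily)
open Pool.Agent.Y707.PC (inc inc_ev ptE ptE_x ptE_y ptE_w ch ch_abs ringChar_of_two card_sqrts)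
open Pool.Agent.Y707.DK (traceOne rs numFactors nr)
open Pool.Agent.Y707.DP (IsDickson endRank psiO psiF nr_psi psi_sep psi_monic_deg pol pol_map
  pol_deg memberCurve goodBase averageSquare average_asy traceSquare)

section
variable {K : Type} [Field K] [NumberField K] {f : Fibration K}
  {R : Finset (HeightOneSpectrum (𝓞 K))} {C : ℝ}

/-- the normalized averages are bounded -/
theorem abs_sqW (hf : IsSmoothFamily f R C) {κ : Type} [Field κ] [Finite κ] (φ : 𝓞 K →+* κ)
    (hφ : Off R φ) : |sqW f κ φ| ≤ |C| * (2 + C ^ 2) := by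
  classical
  let _ := Fintype.ofFinite κ
  have h0 := f.one_le
  have hq : (0 : ℝ) < (Nat.card κ : ℝ) := by exact_mod_cast Nat.card_pos
  have h1 : ∀ t ∈ f.points φ, |2 * (Nat.card κ : ℝ) +
      (eg f.eqFibre f.r (MvPolynomial.eval₂Hom φ t)).sum.re ^ 2| ≤
        (2 + C ^ 2) * Nat.card κ := by
    intro t ht
    obtain ⟨γ, h2, h3⟩ := (hf κ φ hφ).2 t ht
    rw [eg_eq h0 h2]
    have h4 : |γ.sum.re| ≤ |C| * Real.sqrt (Nat.card κ) := by
      refine (Complex.abs_re_le_norm _).trans ((norm_multiset_sum_le _).trans ?_)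
      have h5 : (γ.map norm).sum ≤ (γ.map norm).card • Real.sqrt (Nat.card κ) := by
        refine Multiset.sum_le_card_nsmul _ _ fun x hx => ?_
        obtain ⟨z, hz, rfl⟩ := Multiset.mem_map.1 hx
        rw [h2.norm hz, Real.sqrt_eq_rpow]
        norm_num
      refine h5.trans ?_
      rw [Multiset.card_map, nsmul_eq_mul]
      exact mul_le_mul_of_nonneg_right (h3.trans (le_abs_self C)) (Real.sqrt_nonneg _)
    have h6 : γ.sum.re ^ 2 ≤ C ^ 2 * Nat.card κ := by
      have h7 := pow_le_pow_left₀ (abs_nonneg _) h4 2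
      rw [sq_abs, mul_pow, sq_abs, Real.sq_sqrt hq.le] at h7
      exact h7
    rw [abs_of_nonneg (by positivity)]
    linarith
  have h2 : |∑ᶠ t ∈ f.points φ, (2 * (Nat.card κ : ℝ) +
      (eg f.eqFibre f.r (MvPolynomial.eval₂Hom φ t)).sum.re ^ 2)| ≤
      (Nat.card (f.points φ) : ℝ) * ((2 + C ^ 2) * Nat.card κ) := by
    have hfin : (f.points φ).Finite := Set.toFinite _
    rw [finsum_mem_eq_finite_toFinset_sum _ hfin]
    refine (abs_sum_le_sum_abs _ _).trans ?_
    have h3 := Finset.sum_le_card_nsmul hfin.toFinset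
      (fun t => |2 * (Nat.card κ : ℝ) + (eg f.eqFibre f.r (MvPolynomial.eval₂Hom φ t)).sum.re ^ 2|)
      ((2 + C ^ 2) * Nat.card κ) fun t ht => h1 t (hfin.mem_toFinset.1 ht)
    refine h3.trans (le_of_eq ?_)
    rw [nsmul_eq_mul]
    congr 2
    rw [← Set.ncard_eq_toFinset_card _ hfin]
    rfl
  have h3 : (Nat.card (f.points φ) : ℝ) ≤ |C| * (Nat.card κ : ℝ) ^ f.m :=
    ((hf κ φ hφ).1).trans (mul_le_mul_of_nonneg_right (le_abs_self C) (by positivity))
  have hqm : (0 : ℝ) < (Nat.card κ : ℝ) ^ f.m := by positivity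
  unfold sqW sqAv
  rw [_root_.abs_mul, _root_.abs_mul, abs_of_pos (inv_pos.2 hq), abs_of_pos (inv_pos.2 hqm),
    inv_mul_le_iff₀ hq, inv_mul_le_iff₀ hqm]
  refine h2.trans ((mul_le_mul_of_nonneg_right h3 (by positivity)).trans (le_of_eq ?_))
  ring

end

section
variable {K : Type} [Field K] {k l : ℕ} {G : Fin l → MvPolynomial (Fin k) (𝓞 K)}
  {κ : Type} [Field κ] [Fintype κ]

/-- the base has few points -/
theorem card_eqs {g m : ℕ} {h : MvPolynomial (Fin (k + l + 1)) (𝓞 K)}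
    {f : (MvPolynomial (Fin (k + l + 1)) (𝓞 K))[X]} (hm : f.Monic)
    (hd : f.natDegree = 2 * g + 1) (φ : 𝓞 K →+* κ) :
    (Nat.card ((hyp g m (eqs G) h f).points φ) : ℝ) ≤ 2 ^ l * (Fintype.card κ : ℝ) ^ (k + 1) := by
  classical
  by_cases h2 : ringChar κ = 2
  · have e : (hyp g m (eqs G) h f).points φ = ∅ := by
      refine Set.eq_empty_iff_forall_notMem.2 fun t ht => ?_
      have ht' := (mem_hyp hm hd φ t).1 ht
      apply ht'.2.1
      have h3 : ((ringChar κ : ℕ) : κ) = 0 := ringChar.Nat.cast_ringChar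
      rw [h2] at h3
      exact_mod_cast h3
    rw [e]
    simp
  · have h1 : Nat.card ((hyp g m (eqs G) h f).points φ) ≤
        Nat.card {z : (Fin k → κ) × (Fin l → κ) × κ //
          ∀ i, z.2.1 i ^ 2 = MvPolynomial.eval₂Hom φ z.1 (G i)} := by
      refine Nat.card_le_card_of_injective (fun t => ⟨(ptE κ k l).symm t.1, ?_⟩) ?_
      · have h3 := ((mem_hyp hm hd φ t.1).1 t.2).1
        have h4 := mem_eqs (G := G) φ ((ptE κ k l).symm t.1)
        rw [Equiv.apply_symm_apply] at h4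
        exact h4.1 h3
      · intro t t' htt
        apply Subtype.ext
        exact (ptE κ k l).symm.injective (congrArg Subtype.val htt)
    have h3 : (Nat.card {z : (Fin k → κ) × (Fin l → κ) × κ //
          ∀ i, z.2.1 i ^ 2 = MvPolynomial.eval₂Hom φ z.1 (G i)} : ℝ) ≤
        2 ^ l * (Fintype.card κ : ℝ) ^ (k + 1) := by
      rw [Nat.card_eq_fintype_card, Fintype.card_subtype, ← sum_boole (R := ℝ),
        Fintype.sum_prod_type]
      have h4 : ∀ x ∈ (univ : Finset (Fin k → κ)), ∑ y : (Fin l → κ) × κ,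
          (if ∀ i, (x, y).2.1 i ^ 2 = MvPolynomial.eval₂Hom φ (x, y).1 (G i) then (1 : ℝ) else 0) ≤
            2 ^ l * Fintype.card κ := by
        intro x _
        rw [Fintype.sum_prod_type]
        have h5 : ∑ y : Fin l → κ, ∑ w : κ, (if ∀ i, (x, y, w).2.1 i ^ 2 =
            MvPolynomial.eval₂Hom φ (x, y, w).1 (G i) then (1 : ℝ) else 0) =
            (Fintype.card κ : ℝ) * ∏ i, (1 + ch (MvPolynomial.eval₂Hom φ x (G i))) := by
          rw [← card_sqrts h2, mul_sum]
          refine sum_congr rfl fun y _ => ?_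
          show (∑ _w : κ, if ∀ i, y i ^ 2 = MvPolynomial.eval₂Hom φ x (G i) then (1 : ℝ) else 0) = _
          rw [sum_const, card_univ, nsmul_eq_mul]
        rw [h5, mul_comm]
        refine mul_le_mul_of_nonneg_right ?_ (Nat.cast_nonneg _)
        have h6 : ∀ i, 0 ≤ 1 + ch (MvPolynomial.eval₂Hom φ x (G i)) ∧
            1 + ch (MvPolynomial.eval₂Hom φ x (G i)) ≤ 2 := by
          intro i
          have := abs_le.1 (ch_abs (MvPolynomial.eval₂Hom φ x (G i)))
          constructor <;> linarith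
        refine (prod_le_prod (fun i _ => (h6 i).1) fun i _ => (h6 i).2).trans ?_
        simp
      refine (sum_le_card_nsmul _ _ _ h4).trans (le_of_eq ?_)
      rw [card_univ, Fintype.card_fun, Fintype.card_fin, nsmul_eq_mul, pow_succ]
      push_cast
      ring
    exact le_trans (by exact_mod_cast h1) h3

end

section
variable {K : Type} [Field K] [NumberField K] {n g m : ℕ}
  {V : Set (MvPolynomial (Fin n) (𝓞 K))} {h : MvPolynomial (Fin n) (𝓞 K)}
  {f : (MvPolynomial (Fin n) (𝓞 K))[X]} {κ : Type} [Field κ] [Fintype κ]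

theorem sqAv_hyp (hm : f.Monic) (hd : f.natDegree = 2 * g + 1) (φ : 𝓞 K →+* κ) :
    sqAv (hyp g m V h f) φ = ((Nat.card κ : ℝ) ^ m)⁻¹ *
      ∑ᶠ t ∈ {t : Fin n → κ | (∀ e ∈ V, MvPolynomial.eval₂ φ t e = 0) ∧
      (2 : κ) ≠ 0 ∧ MvPolynomial.eval₂ φ t h ≠ 0 ∧
      (f.map (MvPolynomial.eval₂Hom φ t)).Separable},
        traceSquare (f.map (MvPolynomial.eval₂Hom φ t)) := by
  have e := points_hyp (m := m) (V := V) (h := h) hm hd φ
  unfold sqAv
  rw [← e]
  congr 1
  refine finsum_mem_congr rfl fun t ht => ?_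
  obtain ⟨γ, h1, -, h3⟩ := eigen_hyp hm hd ht
  have h4 : eg (hyp g m V h f).eqFibre (hyp g m V h f).r (MvPolynomial.eval₂Hom φ t) = γ :=
    eg_eq le_rfl h1
  unfold traceSquare
  rw [h4, h3, Complex.ofReal_re]

end

section
variable {K : Type} [Field K] {k l : ℕ}

/-- The family of the smooth projective models of the curves `Y ^ 2 = D_n(X, a(x)) + w` of genus `m`,
`n = 2 m + 1`, over the variety of the points `(x, y, w)` with `y_i ^ 2 = G_i(x) ≠ 0` for which the curve
is smooth. -/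
noncomputable def dicksonFamily (m : ℕ) (G : Fin l → MvPolynomial (Fin k) (𝓞 K))
    (a : MvPolynomial (Fin k) (𝓞 K)) : Fibration K :=
  hyp m (k + 1) (eqs G) (∏ i, inc (𝓞 K) k l (G i))
    (pol m a (inc (𝓞 K) k l) (MvPolynomial.X (Fin.last (k + l))))

variable {m : ℕ} {G : Fin l → MvPolynomial (Fin k) (𝓞 K)} {a : MvPolynomial (Fin k) (𝓞 K)}
  {κ : Type} [Field κ]

theorem pol_pt (φ : 𝓞 K →+* κ) (z : (Fin k → κ) × (Fin l → κ) × κ) :
    (pol m a (inc (𝓞 K) k l) (MvPolynomial.X (Fin.last (k + l)))).map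
      (MvPolynomial.eval₂Hom φ (ptE κ k l z)) = memberCurve m a φ z.1 z.2.2 := by
  have hx : (fun i => ptE κ k l z (Fin.castAdd l i).castSucc) = z.1 := by
    funext i
    exact ptE_x z i
  rw [pol_map, inc_ev, MvPolynomial.eval₂Hom_X', ptE_w, hx]
  rfl

/-- the base of the family -/
theorem set_pol (φ : 𝓞 K →+* κ) (z : (Fin k → κ) × (Fin l → κ) × κ) :
    ptE κ k l z ∈ {t : Fin (k + l + 1) → κ |
      (∀ e ∈ eqs G, MvPolynomial.eval₂ φ t e = 0) ∧ (2 : κ) ≠ 0 ∧
      MvPolynomial.eval₂ φ t (∏ i, inc (𝓞 K) k l (G i)) ≠ 0 ∧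
      ((pol m a (inc (𝓞 K) k l) (MvPolynomial.X (Fin.last (k + l)))).map
        (MvPolynomial.eval₂Hom φ t)).Separable} ↔ z ∈ goodBase m G a φ := by
  have e1 := mem_eqs (G := G) φ z
  have e2 := mem_prod (G := G) φ z
  have e3 := pol_pt (l := l) (m := m) (a := a) φ z
  constructor
  · rintro ⟨h1, h2, h3, h4⟩
    rw [e3] at h4
    have h1' := e1.1 h1
    have h3' := e2.1 h3
    exact ⟨h2, fun i => ⟨h1' i, fun h0 => h3' i (by rw [← h1' i, h0, zero_pow two_ne_zero])⟩, h4⟩
  · rintro ⟨h2, h, hs⟩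
    refine ⟨e1.2 fun i => (h i).1, h2, e2.2 fun i h0 => (h i).2
      (eq_zero_of_pow_eq_zero ((h i).1.trans h0)), ?_⟩
    rw [e3]
    exact hs

theorem sum_pol (φ : 𝓞 K →+* κ) :
    ((Nat.card κ : ℝ) ^ (k + 1))⁻¹ *
      ∑ᶠ t ∈ {t : Fin (k + l + 1) → κ | (∀ e ∈ eqs G, MvPolynomial.eval₂ φ t e = 0) ∧
      (2 : κ) ≠ 0 ∧ MvPolynomial.eval₂ φ t (∏ i, inc (𝓞 K) k l (G i)) ≠ 0 ∧
      ((pol m a (inc (𝓞 K) k l) (MvPolynomial.X (Fin.last (k + l)))).map
        (MvPolynomial.eval₂Hom φ t)).Separable},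
        traceSquare ((pol m a (inc (𝓞 K) k l) (MvPolynomial.X (Fin.last (k + l)))).map
          (MvPolynomial.eval₂Hom φ t)) = averageSquare m G a φ := by
  unfold averageSquare
  congr 1
  symm
  refine finsum_mem_eq_of_bijOn (ptE κ k l) ⟨fun z hz => (set_pol φ z).2 hz,
    (ptE κ k l).injective.injOn, fun t ht => ?_⟩ fun z _ => ?_
  · obtain ⟨z, rfl⟩ := (ptE κ k l).surjective t
    exact ⟨z, (set_pol φ z).1 ht, rfl⟩
  · rw [pol_pt]

end

section
variable {K : Type} [Field K] [NumberField K] {k l m : ℕ}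
  {G : Fin l → MvPolynomial (Fin k) (𝓞 K)} {a : MvPolynomial (Fin k) (𝓞 K)}

theorem smooth_dickson (R : Finset (HeightOneSpectrum (𝓞 K))) :
    IsSmoothFamily (dicksonFamily m G a) R (max (2 ^ l) (2 * m)) := by
  have hd := pol_deg (m := m) (a := a) (inc (𝓞 K) k l) (MvPolynomial.X (Fin.last (k + l)))
  exact smooth_hyp hd.1 hd.2 (fun κ _ _ φ => card_eqs hd.1 hd.2 φ) R

/-- **The pole of the L-function of `H²(C × C)`.** -/
theorem dickson_square_pole (h : IsDickson m G a) (R : Finset (HeightOneSpectrum (𝓞 K)))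
    (E : IntermediateField K (AlgebraicClosure K)) [NumberField E] :
    HasSquarePole (dicksonFamily m G a) R E (endRank m E + 2) := by
  obtain ⟨B, c, hB, hc, hasy⟩ := average_asy h
  have hd := pol_deg (m := m) (a := a) (inc (𝓞 K) k l) (MvPolynomial.X (Fin.last (k + l)))
  have hE : ∀ (F : Type) [Field F] (θ : 𝓞 K →+* F),
      (psiO (𝓞 K) m).map θ = psiF F m := by
    intro F _ θ
    unfold psiO psiF
    rw [Polynomial.map_map]
    congr 1
    exact RingHom.ext_int _ _
  have hmon : (psiO (𝓞 K) m).Monic := (psi_monic_deg m).1.map _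
  have hsep : ((psiO (𝓞 K) m).map (algebraMap (𝓞 K) K)).Separable := by
    rw [hE]
    exact psi_sep two_ne_zero (by exact_mod_cast Nat.succ_ne_zero (2 * m))
  have hsm := smooth_dickson (m := m) (G := G) (a := a) R
  have key := key' 2 hmon hsep (α := fun κ _ φ => -sqW (dicksonFamily m G a) κ φ) (B := B) hc
    (fun κ _ _ φ hφ => by
      have h1 := hasy κ φ hφ
      have hq : (0 : ℝ) < Fintype.card κ := by exact_mod_cast Fintype.card_pos (α := κ)
      have h2 : sqAv (dicksonFamily m G a) φ = averageSquare m G a φ := by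
        unfold dicksonFamily
        rw [sqAv_hyp hd.1 hd.2, sum_pol]
      unfold sqW
      rw [h2, nr_psi, Nat.card_eq_fintype_card]
      have h3 : -((Fintype.card κ : ℝ)⁻¹ * averageSquare m G a φ) +
          (((2 : ℤ) : ℝ) + ((Pool.Agent.Y707.DP.ts κ m).card : ℝ)) =
          -((Fintype.card κ : ℝ)⁻¹ * (averageSquare m G a φ - Fintype.card κ *
            (2 + (Pool.Agent.Y707.DP.ts κ m).card))) := by
        push_cast
        field_simp
        ring
      rw [h3, abs_neg, _root_.abs_mul, abs_of_pos (inv_pos.2 hq), mul_assoc, inv_mul_le_iff₀ hq]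
      have h4 := mul_le_mul_of_nonneg_right h1 (Real.sqrt_nonneg (Fintype.card κ))
      rw [mul_assoc, Real.mul_self_sqrt hq.le] at h4
      linarith) R E
  have e1 : (fun (κ : Type) [Field κ] (φ : 𝓞 K →+* κ) =>
      - -sqW (dicksonFamily m G a) κ φ) = sqW (dicksonFamily m G a) := by
    funext κ _ φ
    exact neg_neg _
  rw [e1] at key
  have e2 : ((2 : ℤ) + numFactors ((psiO (𝓞 K) m).map ((algebraMap K E).comp
      (algebraMap (𝓞 K) K)))) = (endRank m E + 2 : ℤ) := by
    rw [hE]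
    unfold endRank psiF
    ring
  rw [e2] at key
  exact square_pole hsm (fun κ _ _ φ hφ => abs_sqW hsm φ hφ) key

end

end Pool.Agent.Q11.PB
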