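import Pool.Agent.Q11.PB.KeyAdd
import Pool.Agent.Q11.PB.Quad
import Pool.Agent.Y707.SF.Fin

/-!
# The poles of the L-functions of `H²` for linear pencils of surfaces with a hyperelliptic fibration
-/

set_option autoImplicit false
set_option maxHeartbeats 400000

namespace Pool.Agent.Q11.PB

open NumberField IsDedekindDomain Filter Topology Polynomial Finset
open Pool.Agent.W353.FB (Fibration)
open Pool.Agent.Y707.PH (Off averageValue av)
open Pool.Agent.Y707.PC
open Pool.Agent.Y707.SF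

section
variable {K : Type} [Field K] [NumberField K] {k l r : ℕ}

/-- The polynomial `D(x, w)` in the variables `x, y, w`. -/
noncomputable def inW (k l : ℕ) (D : (MvPolynomial (Fin k) (𝓞 K))[X]) :
    MvPolynomial (Fin (k + l + 1)) (𝓞 K) :=
  D.eval₂ (inc (𝓞 K) k l) (MvPolynomial.X (Fin.last (k + l)))

/-- The base of the family: the variety of the points `(x, y, w)` with `y_i ^ 2 = G_i(x) ≠ 0` and
`2 D(x, w) ≠ 0`, of dimension `m = k + 1`.  (The fibres are given by `surfaceTrace`, and the entries for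
the equations of the fibres are void.) -/
noncomputable def surfaceBase (G : Fin l → MvPolynomial (Fin k) (𝓞 K))
    (D : (MvPolynomial (Fin k) (𝓞 K))[X]) : Fibration K where
  l := k + l + 1
  eqBase := eqs G
  h := 2 * (∏ i, inc (𝓞 K) k l (G i)) * inW k l D
  m := k + 1
  n := 0
  eqFibre := ∅
  r := 1
  one_le := le_rfl

/-- The surface over the point `ψ` of the base: `a(x, t, X) + w ∏ (X - α_j(x, t))`. -/
noncomputable def surfaceAt (a : (MvPolynomial (Fin k) (𝓞 K))[X][X])
    (α : Fin r → (MvPolynomial (Fin k) (𝓞 K))[X]) {κ : Type} [Field κ]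
    (ψ : MvPolynomial (Fin (k + l + 1)) (𝓞 K) →+* κ) : κ[X][X] :=
  pen a α (mapRingHom (ψ.comp (inc (𝓞 K) k l))) (C (ψ (MvPolynomial.X (Fin.last (k + l)))))

/-- The trace of the Frobenius on `H²` of the surface over the point `ψ` of the base with coordinates
in `κ`. -/
noncomputable def surfaceTrace (g n : ℕ) (G : Fin l → MvPolynomial (Fin k) (𝓞 K))
    (a : (MvPolynomial (Fin k) (𝓞 K))[X][X]) (α : Fin r → (MvPolynomial (Fin k) (𝓞 K))[X])
    (D : (MvPolynomial (Fin k) (𝓞 K))[X]) : Trace (surfaceBase G D) :=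
  fun _ _ ψ => traceTwo g n (surfaceAt (l := l) a α ψ)

variable {g n : ℕ} {G : Fin l → MvPolynomial (Fin k) (𝓞 K)}
  {a : (MvPolynomial (Fin k) (𝓞 K))[X][X]} {α : Fin r → (MvPolynomial (Fin k) (𝓞 K))[X]}
  {D : (MvPolynomial (Fin k) (𝓞 K))[X]}

theorem traceTwo_iso {κ κ' : Type} [Field κ] [Field κ'] (θ : κ ≃+* κ') (f : κ[X][X]) :
    traceTwo g n (f.map (mapRingHom (θ : κ →+* κ'))) = traceTwo g n f := by
  have e0 : ∀ (t x : κ), (f.map (mapRingHom (θ : κ →+* κ'))).evalEval (θ t) (θ x) =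
      θ (f.evalEval t x) := by
    intro t x
    have h1 := Polynomial.map_mapRingHom_evalEval (θ : κ →+* κ') f t x
    exact h1
  have e1 : Nat.card {P : κ' × κ' × κ' // P.2.2 ^ 2 =
      (f.map (mapRingHom (θ : κ →+* κ'))).evalEval P.1 P.2.1} =
      Nat.card {P : κ × κ × κ // P.2.2 ^ 2 = f.evalEval P.1 P.2.1} := by
    refine (Nat.card_congr ((θ.toEquiv.prodCongr (θ.toEquiv.prodCongr θ.toEquiv)).subtypeEquiv
      fun P => ?_)).symm
    show P.2.2 ^ 2 = f.evalEval P.1 P.2.1 ↔ (θ P.2.2) ^ 2 =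
      (f.map (mapRingHom (θ : κ →+* κ'))).evalEval (θ P.1) (θ P.2.1)
    rw [e0, ← map_pow]
    exact θ.injective.eq_iff.symm
  have e2 : Nat.card {P : κ' × κ' // P.2 ^ 2 =
      (atInfinity g n (f.map (mapRingHom (θ : κ →+* κ')))).eval P.1} =
      Nat.card {P : κ × κ // P.2 ^ 2 = (atInfinity g n f).eval P.1} := by
    refine (Nat.card_congr ((θ.toEquiv.prodCongr θ.toEquiv).subtypeEquiv fun P => ?_)).symm
    show P.2 ^ 2 = (atInfinity g n f).eval P.1 ↔ (θ P.2) ^ 2 =
      (atInfinity g n (f.map (mapRingHom (θ : κ →+* κ')))).eval (θ P.1)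
    have h1 : (atInfinity g n (f.map (mapRingHom (θ : κ →+* κ')))).eval (θ P.1) =
        θ ((atInfinity g n f).eval P.1) := by
      rw [atInfinity_map, eval_map]
      exact Polynomial.eval₂_at_apply (θ : κ →+* κ') P.1
    rw [h1, ← map_pow]
    exact θ.injective.eq_iff.symm
  unfold traceTwo
  rw [e1, e2, Nat.card_congr θ.symm.toEquiv]

theorem surfaceAt_iso {κ κ' : Type} [Field κ] [Field κ'] (θ : κ →+* κ')
    (ψ : MvPolynomial (Fin (k + l + 1)) (𝓞 K) →+* κ) :
    surfaceAt a α (θ.comp ψ) = (surfaceAt a α ψ).map (mapRingHom θ) := by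
  unfold surfaceAt
  rw [pen_map, mapRingHom_comp, coe_mapRingHom, Polynomial.map_C]
  rfl

theorem invariant_surface : Invariant (surfaceTrace g n G a α D) := by
  intro κ κ' _ _ _ _ θ ψ
  show traceTwo g n (surfaceAt (l := l) a α ((θ : κ →+* κ').comp ψ)) =
    traceTwo g n (surfaceAt (l := l) a α ψ)
  rw [← traceTwo_iso θ]
  congr 1
  exact surfaceAt_iso (θ : κ →+* κ') ψ

theorem surfaceAt_pt {κ : Type} [Field κ] (φ : 𝓞 K →+* κ)
    (z : (Fin k → κ) × (Fin l → κ) × κ) :
    surfaceAt a α (MvPolynomial.eval₂Hom φ (ptE κ k l z)) = member a α φ z.1 z.2.2 := by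
  have hx : (fun i => ptE κ k l z (Fin.castAdd l i).castSucc) = z.1 := by
    funext i
    exact ptE_x z i
  unfold surfaceAt member
  rw [inc_ev, MvPolynomial.eval₂Hom_X', ptE_w, hx]

theorem inW_pt {κ : Type} [Field κ] (φ : 𝓞 K →+* κ) (z : (Fin k → κ) × (Fin l → κ) × κ) :
    MvPolynomial.eval₂Hom φ (ptE κ k l z) (inW k l D) =
      (D.map (MvPolynomial.eval₂Hom φ z.1)).eval z.2.2 := by
  have hx : (fun i => ptE κ k l z (Fin.castAdd l i).castSucc) = z.1 := by
    funext i
    exact ptE_x z i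
  unfold inW
  rw [Polynomial.hom_eval₂, inc_ev, MvPolynomial.eval₂Hom_X', ptE_w, hx, eval_map]

theorem mem_surface {κ : Type} [Field κ] (φ : 𝓞 K →+* κ) (z : (Fin k → κ) × (Fin l → κ) × κ) :
    ptE κ k l z ∈ (surfaceBase G D).points φ ↔
      (∀ i, z.2.1 i ^ 2 = MvPolynomial.eval₂Hom φ z.1 (G i)) ∧ (2 : κ) ≠ 0 ∧
      (∀ i, MvPolynomial.eval₂Hom φ z.1 (G i) ≠ 0) ∧
      (D.map (MvPolynomial.eval₂Hom φ z.1)).eval z.2.2 ≠ 0 := by
  have e1 := mem_eqs (G := G) φ z
  have e2 := mem_prod (G := G) φ z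
  have e3 : MvPolynomial.eval₂ φ (ptE κ k l z) (surfaceBase G D).h =
      2 * MvPolynomial.eval₂ φ (ptE κ k l z) (∏ i, inc (𝓞 K) k l (G i)) *
        (D.map (MvPolynomial.eval₂Hom φ z.1)).eval z.2.2 := by
    have e : MvPolynomial.eval₂ φ (ptE κ k l z) (surfaceBase G D).h =
        MvPolynomial.eval₂Hom φ (ptE κ k l z) (2 * (∏ i, inc (𝓞 K) k l (G i)) * inW k l D) := rfl
    rw [e, map_mul, map_mul, map_ofNat, inW_pt]
    rfl
  constructor
  · rintro ⟨h1, h2'⟩
    have h2 : 2 * MvPolynomial.eval₂ φ (ptE κ k l z) (∏ i, inc (𝓞 K) k l (G i)) *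
        (D.map (MvPolynomial.eval₂Hom φ z.1)).eval z.2.2 ≠ 0 := fun h0 => h2' (e3.trans h0)
    exact ⟨e1.1 h1, left_ne_zero_of_mul (left_ne_zero_of_mul h2),
      e2.1 (right_ne_zero_of_mul (left_ne_zero_of_mul h2)), right_ne_zero_of_mul h2⟩
  · rintro ⟨h1, h2, h3, h4⟩
    exact ⟨e1.2 h1, fun h0 => mul_ne_zero (mul_ne_zero h2 (e2.2 h3)) h4 (e3.symm.trans h0)⟩

variable {κ : Type} [Field κ] [Fintype κ]

/-- the base has few points -/
theorem card_surface (φ : 𝓞 K →+* κ) :
    (Nat.card ((surfaceBase G D).points φ) : ℝ) ≤ 2 ^ l * (Fintype.card κ : ℝ) ^ (k + 1) := by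
  classical
  by_cases h2 : ringChar κ = 2
  · have e : (surfaceBase G D).points φ = ∅ := by
      refine Set.eq_empty_iff_forall_notMem.2 fun t ht => ?_
      obtain ⟨z, rfl⟩ := (ptE κ k l).surjective t
      have ht' := (mem_surface φ z).1 ht
      apply ht'.2.1
      have h3 : ((ringChar κ : ℕ) : κ) = 0 := ringChar.Nat.cast_ringChar
      rw [h2] at h3
      exact_mod_cast h3
    rw [e]
    simp
  · have h1 : Nat.card ((surfaceBase G D).points φ) ≤
        Nat.card {z : (Fin k → κ) × (Fin l → κ) × κ //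
          ∀ i, z.2.1 i ^ 2 = MvPolynomial.eval₂Hom φ z.1 (G i)} := by
      refine Nat.card_le_card_of_injective (fun t => ⟨(ptE κ k l).symm t.1, ?_⟩) ?_
      · have h4 := mem_surface (G := G) (D := D) φ ((ptE κ k l).symm t.1)
        rw [Equiv.apply_symm_apply] at h4
        exact (h4.1 t.2).1
      · intro t t' htt
        apply Subtype.ext
        exact (ptE κ k l).symm.injective (congrArg Subtype.val htt)
    have h3 : (Nat.card {z : (Fin k → κ) × (Fin l → κ) × κ //
          ∀ i, z.2.1 i ^ 2 = MvPolynomial.eval₂Hom φ z.1 (G i)} : ℝ) ≤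
        2 ^ l * (Fintype.card κ : ℝ) ^ (k + 1) := by
      rw [Nat.card_eq_fintype_card, Fintype.card_subtype, ← sum_boole (R := ℝ),
        Fintype.sum_prod_type]
      have h4 : ∀ x ∈ (univ : Finset (Fin k → κ)), ∑ y : (Fin l → κ) × κ,
          (if ∀ i, (x, y).2.1 i ^ 2 = MvPolynomial.eval₂Hom φ (x, y).1 (G i) then (1 : ℝ) else 0) ≤
            2 ^ l * Fintype.card κ := by
        intro x _
        rw [Fintype.sum_prod_type]
        have h5 : ∑ y : Fin l → κ, ∑ w : κ, (if ∀ i, (x, y, w).2.1 i ^ 2 =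
            MvPolynomial.eval₂Hom φ (x, y, w).1 (G i) then (1 : ℝ) else 0) =
            (Fintype.card κ : ℝ) * nx G φ x := by
          rw [nx, ← card_sqrts h2, mul_sum]
          refine sum_congr rfl fun y _ => ?_
          show (∑ _w : κ, if ∀ i, y i ^ 2 = MvPolynomial.eval₂Hom φ x (G i) then (1 : ℝ) else 0) = _
          rw [sum_const, card_univ, nsmul_eq_mul]
        rw [h5, mul_comm]
        exact mul_le_mul_of_nonneg_right (nx_bd φ x).2 (Nat.cast_nonneg _)
      refine (sum_le_card_nsmul _ _ _ h4).trans (le_of_eq ?_)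
      rw [card_univ, Fintype.card_fun, Fintype.card_fin, nsmul_eq_mul, pow_succ]
      push_cast
      ring
    exact le_trans (by exact_mod_cast h1) h3

open Classical in
variable (g n a α D) in
/-- the sum over the members at which `D` does not vanish -/
noncomputable def sD (φ : 𝓞 K →+* κ) (x : Fin k → κ) : ℝ :=
  ∑ w : κ, if (D.map (MvPolynomial.eval₂Hom φ x)).eval w ≠ 0 then
    traceTwo g n (member a α φ x w) else 0

open Classical in
/-- the sum over the base -/
theorem sum_surface (φ : 𝓞 K →+* κ) (h2 : ringChar κ ≠ 2) :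
    ∑ᶠ t ∈ (surfaceBase G D).points φ, surfaceTrace g n G a α D κ (MvPolynomial.eval₂Hom φ t) =
      ∑ x : Fin k → κ, if ∀ i, MvPolynomial.eval₂Hom φ x (G i) ≠ 0 then
        nx G φ x * sD g n a α D φ x else 0 := by
  have h20 : (2 : κ) ≠ 0 := Ring.two_ne_zero h2
  have e0 : ∑ᶠ t ∈ (surfaceBase G D).points φ,
      surfaceTrace g n G a α D κ (MvPolynomial.eval₂Hom φ t) =
      ∑ᶠ z ∈ {z : (Fin k → κ) × (Fin l → κ) × κ | ptE κ k l z ∈ (surfaceBase G D).points φ},
        traceTwo g n (member a α φ z.1 z.2.2) := by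
    symm
    refine finsum_mem_eq_of_bijOn (ptE κ k l) ⟨fun z hz => hz,
      (ptE κ k l).injective.injOn, fun t ht => ?_⟩ fun z _ => ?_
    · obtain ⟨z, rfl⟩ := (ptE κ k l).surjective t
      exact ⟨z, ht, rfl⟩
    · show _ = traceTwo g n (surfaceAt a α (MvPolynomial.eval₂Hom φ (ptE κ k l z)))
      rw [surfaceAt_pt]
  rw [e0, finsum_mem_def, finsum_eq_sum_of_fintype]
  have h3 : (∑ P : (Fin k → κ) × (Fin l → κ) × κ,
      ({z : (Fin k → κ) × (Fin l → κ) × κ | ptE κ k l z ∈ (surfaceBase G D).points φ}).indicator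
      (fun P => traceTwo g n (member a α φ P.1 P.2.2)) P) =
      ∑ z : (Fin k → κ) × (Fin l → κ) × κ, if ((∀ i, z.2.1 i ^ 2 =
        MvPolynomial.eval₂Hom φ z.1 (G i)) ∧ (∀ i, MvPolynomial.eval₂Hom φ z.1 (G i) ≠ 0) ∧
        (D.map (MvPolynomial.eval₂Hom φ z.1)).eval z.2.2 ≠ 0) then
          traceTwo g n (member a α φ z.1 z.2.2) else 0 := by
    refine sum_congr rfl fun z _ => ?_
    rw [Set.indicator_apply]
    refine if_congr ?_ rfl rfl
    rw [Set.mem_setOf_eq, mem_surface]
    constructor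
    · rintro ⟨h, _, hG, hs⟩
      exact ⟨h, hG, hs⟩
    · rintro ⟨h, hG, hs⟩
      exact ⟨h, h20, hG, hs⟩
  rw [h3, Fintype.sum_prod_type]
  refine sum_congr rfl fun x _ => ?_
  rw [Fintype.sum_prod_type]
  by_cases hG : ∀ i, MvPolynomial.eval₂Hom φ x (G i) ≠ 0
  · rw [if_pos hG, nx, ← card_sqrts h2, sum_mul]
    refine sum_congr rfl fun y _ => ?_
    unfold sD
    rw [mul_sum]
    refine sum_congr rfl fun w _ => ?_
    by_cases h4 : ∀ i, y i ^ 2 = MvPolynomial.eval₂Hom φ x (G i)
    · rw [if_pos h4, one_mul]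
      by_cases h5 : (D.map (MvPolynomial.eval₂Hom φ x)).eval w ≠ 0
      · rw [if_pos h5, if_pos ⟨h4, hG, h5⟩]
      · rw [if_neg h5, if_neg fun h => h5 h.2.2]
    · rw [if_neg h4, zero_mul, if_neg fun h => h4 h.1]
  · rw [if_neg hG]
    refine sum_eq_zero fun y _ => sum_eq_zero fun w _ => ?_
    rw [if_neg fun h => hG h.2.1]

open Classical in
/-- the exceptional members -/
theorem abs_exc (h : IsSurfacePencil g n G a α) (h2 : ringChar κ ≠ 2) (φ : 𝓞 K →+* κ)
    (x : Fin k → κ) (hD : D.map (MvPolynomial.eval₂Hom φ x) ≠ 0) (S : κ → Prop)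
    (hS : ∀ w, S w → (D.map (MvPolynomial.eval₂Hom φ x)).eval w = 0) :
    |∑ w : κ, (if S w then traceTwo g n (member a α φ x w) else 0)| ≤
      D.natDegree * ((4 * g + 2) * (Fintype.card κ * Real.sqrt (Fintype.card κ))) := by
  have h5 : ∀ w : κ, |if S w then traceTwo g n (member a α φ x w) else 0| ≤
      if (D.map (MvPolynomial.eval₂Hom φ x)).eval w = 0 then
        ((4 * g + 2) * (Fintype.card κ * Real.sqrt (Fintype.card κ))) else 0 := by
    intro w
    by_cases hw : S w
    · rw [if_pos hw, if_pos (hS w hw)]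
      exact tr_abs h h2 φ x w
    · rw [if_neg hw, abs_zero]
      split_ifs
      · positivity
      · exact le_rfl
  refine (abs_sum_le_sum_abs _ _).trans ((sum_le_sum fun t _ => h5 t).trans ?_)
  rw [← sum_filter, sum_const, nsmul_eq_mul]
  refine mul_le_mul_of_nonneg_right ?_ (by positivity)
  refine (card_zeros hD).trans ?_
  exact_mod_cast natDegree_map_le

variable (g r D) in
/-- the constant -/
noncomputable def cS : ℝ := (r + 2 * g + 2) + D.natDegree * (4 * g + 2)

/-- the sums are bounded at all primes -/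
theorem sD_abs (h : IsSurfacePencil g n G a α) (h2 : ringChar κ ≠ 2) (φ : 𝓞 K →+* κ)
    (x : Fin k → κ) : |sD g n a α D φ x| ≤ cS r g D * (Fintype.card κ : ℝ) ^ 2 := by
  classical
  obtain ⟨hr1, hr2, hr3⟩ := sqrt_facts κ
  by_cases hD : D.map (MvPolynomial.eval₂Hom φ x) = 0
  · unfold sD
    rw [sum_eq_zero fun w _ => by rw [if_neg (not_not.2 (by rw [hD, eval_zero]))], abs_zero]
    unfold cS
    positivity
  · have h3 := abs_exc h h2 φ x hD (fun w => (D.map (MvPolynomial.eval₂Hom φ x)).eval w = 0)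
      fun w hw => hw
    have e1 : sD g n a α D φ x = ∑ w : κ, traceTwo g n (member a α φ x w) -
        ∑ w : κ, (if (D.map (MvPolynomial.eval₂Hom φ x)).eval w = 0 then
          traceTwo g n (member a α φ x w) else 0) := by
      unfold sD
      rw [← sum_sub_distrib]
      refine sum_congr rfl fun w _ => ?_
      by_cases hw : (D.map (MvPolynomial.eval₂Hom φ x)).eval w = 0
      · rw [if_neg (not_not.2 hw), if_pos hw, sub_self]
      · rw [if_pos hw, if_neg hw, sub_zero]
    have e2 : ∑ w : κ, traceTwo g n (member a α φ x w) =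
        ∑ t : κ, ∑ w : κ, ms a α φ x t w + ∑ w : κ, mi g n a α φ x w +
          2 * (Fintype.card κ : ℝ) ^ 2 := by
      simp only [tr_eq h2]
      rw [sum_add_distrib, sum_add_distrib, sum_const, card_univ, nsmul_eq_mul, sum_comm]
      ring
    have b1 : |∑ t : κ, ∑ w : κ, ms a α φ x t w| ≤
        (Fintype.card κ : ℝ) * (Fintype.card κ * r) := by
      refine (abs_sum_le_sum_abs _ _).trans ((sum_le_sum fun t _ => ?_ :
        _ ≤ ∑ _t : κ, (Fintype.card κ * r : ℝ)).trans ?_)
      · unfold ms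
        rw [Pool.Agent.Y707.PC.sum_mem h2, _root_.abs_mul, Nat.abs_cast]
        exact mul_le_mul_of_nonneg_left bas_abs (Nat.cast_nonneg _)
      · rw [sum_const, card_univ, nsmul_eq_mul]
    have b2 : |∑ w : κ, mi g n a α φ x w| ≤
        Fintype.card κ * (2 * g * Real.sqrt (Fintype.card κ)) := by
      refine (abs_sum_le_sum_abs _ _).trans ((sum_le_sum fun w _ => mi_abs h h2 φ x w).trans ?_)
      rw [sum_const, card_univ, nsmul_eq_mul]
    rw [e1, e2]
    set s := Real.sqrt (Fintype.card κ) with hs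
    set q : ℝ := (Fintype.card κ : ℝ) with hq
    have hq0 : 0 ≤ q := by positivity
    have hsq : s ≤ q := by nlinarith
    have h9 : q * (2 * g * s) ≤ 2 * g * q ^ 2 := by
      have := mul_le_mul_of_nonneg_left hsq (by positivity : (0 : ℝ) ≤ q * (2 * g))
      nlinarith
    have h10 : D.natDegree * ((4 * g + 2) * (q * s)) ≤ D.natDegree * (4 * g + 2) * q ^ 2 := by
      have := mul_le_mul_of_nonneg_left hsq
        (by positivity : (0 : ℝ) ≤ D.natDegree * ((4 * g + 2) * q))
      nlinarith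
    refine (abs_sub _ _).trans ((add_le_add ((abs_add_le _ _).trans (add_le_add
      ((abs_add_le _ _).trans (add_le_add b1 b2)) le_rfl)) h3).trans ?_)
    rw [abs_of_nonneg (by positivity : (0 : ℝ) ≤ 2 * q ^ 2)]
    unfold cS
    nlinarith

end

section
variable {K : Type} [Field K] [NumberField K] {k l r g n : ℕ}
  {G : Fin l → MvPolynomial (Fin k) (𝓞 K)} {a : (MvPolynomial (Fin k) (𝓞 K))[X][X]}
  {α : Fin r → (MvPolynomial (Fin k) (𝓞 K))[X]} {D : (MvPolynomial (Fin k) (𝓞 K))[X]}

/-- the normalized averages are bounded -/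
theorem abs_wW (h : IsSurfacePencil g n G a α) {κ : Type} [Field κ] [Finite κ] (φ : 𝓞 K →+* κ) :
    |wW (surfaceBase G D) (surfaceTrace g n G a α D) 1 κ φ| ≤ 2 ^ l * cS r g D := by
  classical
  let _ := Fintype.ofFinite κ
  have hc : 0 ≤ cS r g D := by
    unfold cS
    positivity
  unfold wW
  by_cases h2 : ringChar κ = 2
  · have e : (surfaceBase G D).points φ = ∅ := by
      refine Set.eq_empty_iff_forall_notMem.2 fun t ht => ?_
      obtain ⟨z, rfl⟩ := (ptE κ k l).surjective t
      have ht' := (mem_surface φ z).1 ht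
      apply ht'.2.1
      have h3 : ((ringChar κ : ℕ) : κ) = 0 := ringChar.Nat.cast_ringChar
      rw [h2] at h3
      exact_mod_cast h3
    rw [e, finsum_mem_empty, mul_zero, abs_zero]
    positivity
  · rw [sum_surface φ h2, Nat.card_eq_fintype_card]
    have hq : (0 : ℝ) < Fintype.card κ := by exact_mod_cast Fintype.card_pos (α := κ)
    have hm : (surfaceBase G D).m + 1 = k + 2 := rfl
    rw [hm, _root_.abs_mul, abs_of_pos (inv_pos.2 (by positivity)), inv_mul_le_iff₀ (by positivity)]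
    have h3 : ∀ x ∈ (univ : Finset (Fin k → κ)),
        |if ∀ i, MvPolynomial.eval₂Hom φ x (G i) ≠ 0 then nx G φ x * sD g n a α D φ x else 0| ≤
          2 ^ l * (cS r g D * (Fintype.card κ : ℝ) ^ 2) := by
      intro x _
      split_ifs
      · rw [_root_.abs_mul, abs_of_nonneg (nx_bd φ x).1]
        exact mul_le_mul (nx_bd φ x).2 (sD_abs h h2 φ x) (abs_nonneg _) (by positivity)
      · rw [abs_zero]
        positivity
    refine (abs_sum_le_sum_abs _ _).trans ((sum_le_card_nsmul _ _ _ h3).trans (le_of_eq ?_))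
    rw [card_univ, Fintype.card_fun, Fintype.card_fin, nsmul_eq_mul]
    push_cast
    ring

/-- **The normalized averages.** -/
theorem wW_asy (h : IsSurfacePencil g n G a α) (hD0 : D ≠ 0)
    (hD1 : C (C D) ∈ Ideal.span {family a α, derivative (family a α), dt (family a α)})
    (hD2 : C D ∈ Ideal.span {atInfinity g n (family a α),
      derivative (atInfinity g n (family a α))}) :
    ∃ (B : ℝ) (c : 𝓞 K), c ≠ 0 ∧
    ∀ (κ : Type) [Field κ] [Fintype κ] (φ : 𝓞 K →+* κ), φ c ≠ 0 →
      |wW (surfaceBase G D) (surfaceTrace g n G a α D) 1 κ φ - (((2 : ℤ) : ℝ) +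
        ((Fintype.card κ : ℝ) ^ (k + 1 + 1))⁻¹ * TT g (G1 G) (a1 a) (α1 α) φ)| *
          Real.sqrt (Fintype.card κ) ≤ B := by
  classical
  obtain ⟨B, c, hB, hc, hasy⟩ := average_asy h
  obtain ⟨Dg, c', hDg, hc', hfam⟩ := fam_sum (leadingCoeff_ne_zero.2 hD0)
  set c1 : ℝ := 2 ^ l * (D.natDegree * (4 * g + 2)) with hc1
  set c2 : ℝ := 2 ^ l * (4 * g + 2) with hc2
  refine ⟨B + (c1 + c2 * Dg), 2 * (c * c'), mul_ne_zero two_ne_zero (mul_ne_zero hc hc'), ?_⟩
  intro κ _ _ φ hφ
  rw [map_mul, map_mul, map_ofNat] at hφ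
  have h20 : (2 : κ) ≠ 0 := left_ne_zero_of_mul hφ
  have h2 : ringChar κ ≠ 2 := ringChar_of_two h20
  obtain ⟨hr1, hr2, hr3⟩ := sqrt_facts κ
  have hq : (0 : ℝ) < Fintype.card κ := by exact_mod_cast Fintype.card_pos (α := κ)
  have h0 := hasy κ φ (left_ne_zero_of_mul (right_ne_zero_of_mul hφ))
  set T : (Fin k → κ) → ℝ := fun x => if ∀ i, MvPolynomial.eval₂Hom φ x (G i) ≠ 0 then
    nx G φ x * (Pool.Agent.Y707.SF.sm g n a α φ x - sD g n a α D φ x) else 0 with hT
  have hdiff : ∀ x, Pool.Agent.Y707.SF.sm g n a α φ x - sD g n a α D φ x =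
      ∑ w : κ, (if IsSmoothSurface g n (member a α φ x w) ∧
        (D.map (MvPolynomial.eval₂Hom φ x)).eval w = 0 then
        traceTwo g n (member a α φ x w) else 0) := by
    intro x
    unfold Pool.Agent.Y707.SF.sm sD
    rw [← sum_sub_distrib]
    refine sum_congr rfl fun w _ => ?_
    by_cases hw : (D.map (MvPolynomial.eval₂Hom φ x)).eval w = 0
    · rw [if_neg (not_not.2 hw), sub_zero]
      by_cases hs : IsSmoothSurface g n (member a α φ x w)
      · rw [if_pos hs, if_pos ⟨hs, hw⟩]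
      · rw [if_neg hs, if_neg fun h' => hs h'.1]
    · have hs : IsSmoothSurface g n (member a α φ x w) :=
        smooth_member h20 h hD1 hD2 (MvPolynomial.eval₂Hom φ x) w hw
      rw [if_pos hs, if_pos hw, sub_self, if_neg fun h' => hw h'.2]
  have h1 := hfam κ φ (right_ne_zero_of_mul (right_ne_zero_of_mul hφ)) T
    (c1 * (Fintype.card κ * Real.sqrt (Fintype.card κ)))
    (c2 * (Fintype.card κ * Real.sqrt (Fintype.card κ))) (by positivity) (by positivity) (by
      intro x hx
      have h5 := abs_exc h h2 φ x (map_ne hx) (fun w => IsSmoothSurface g n (member a α φ x w) ∧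
        (D.map (MvPolynomial.eval₂Hom φ x)).eval w = 0) fun w hw => hw.2
      have h5' : |Pool.Agent.Y707.SF.sm g n a α φ x - sD g n a α D φ x| ≤
          D.natDegree * ((4 * g + 2) * (Fintype.card κ * Real.sqrt (Fintype.card κ))) := by
        refine le_trans (le_of_eq ?_) h5
        congr 1
        refine (hdiff x).trans (sum_congr rfl fun w _ => ?_)
        congr
      simp only [hT]
      split_ifs
      · rw [_root_.abs_mul, abs_of_nonneg (nx_bd φ x).1, hc1, mul_assoc]
        refine mul_le_mul (nx_bd φ x).2 (h5'.trans (le_of_eq ?_)) (abs_nonneg _) (by positivity)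
        ring
      · rw [abs_zero]
        positivity) (by
      intro x
      have h5 : |Pool.Agent.Y707.SF.sm g n a α φ x - sD g n a α D φ x| ≤ Fintype.card κ *
          ((4 * g + 2) * (Fintype.card κ * Real.sqrt (Fintype.card κ))) := by
        rw [hdiff]
        have h6 : ∀ w : κ, |if IsSmoothSurface g n (member a α φ x w) ∧
            (D.map (MvPolynomial.eval₂Hom φ x)).eval w = 0 then
            traceTwo g n (member a α φ x w) else 0| ≤
            (4 * g + 2) * (Fintype.card κ * Real.sqrt (Fintype.card κ)) := by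
          intro w
          split_ifs
          · exact tr_abs h h2 φ x w
          · rw [abs_zero]
            positivity
        refine (abs_sum_le_sum_abs _ _).trans ((sum_le_sum fun w _ => h6 w).trans ?_)
        rw [sum_const, card_univ, nsmul_eq_mul]
      simp only [hT]
      split_ifs
      · rw [_root_.abs_mul, abs_of_nonneg (nx_bd φ x).1, hc2]
        refine (mul_le_mul (nx_bd φ x).2 h5 (abs_nonneg _) (by positivity)).trans (le_of_eq ?_)
        ring
      · rw [abs_zero]
        positivity)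
  have h3 : ∑ x, T x = ∑ᶠ P ∈ goodPoints g n G a α φ, traceTwo g n (member a α φ P.1 P.2.2) -
      ∑ᶠ t ∈ (surfaceBase G D).points φ,
        surfaceTrace g n G a α D κ (MvPolynomial.eval₂Hom φ t) := by
    rw [sum_surface φ h2, sum_good φ h2 fun x w => traceTwo g n (member a α φ x w),
      ← sum_sub_distrib]
    refine sum_congr rfl fun x _ => ?_
    simp only [hT]
    split_ifs
    · unfold Pool.Agent.Y707.SF.sm
      ring
    · rw [sub_zero]
  rw [h3] at h1
  unfold averageTwo at h0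
  unfold wW
  have hm : (surfaceBase G D).m + 1 = k + 1 + 1 := rfl
  rw [hm]
  rw [Nat.card_eq_fintype_card] at h0 ⊢
  set q : ℝ := (Fintype.card κ : ℝ) with hqd
  set s := Real.sqrt (Fintype.card κ) with hs
  set S1 := ∑ᶠ P ∈ goodPoints g n G a α φ, traceTwo g n (member a α φ P.1 P.2.2) with hS1
  set S2 := ∑ᶠ t ∈ (surfaceBase G D).points φ,
    surfaceTrace g n G a α D κ (MvPolynomial.eval₂Hom φ t) with hS2
  set z := (q ^ (k + 1 + 1))⁻¹ * TT g (G1 G) (a1 a) (α1 α) φ with hz
  have hs0 : 0 < s := by linarith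
  have e1 : (q ^ (k + 1 + 1))⁻¹ * S2 - (((2 : ℤ) : ℝ) + z) =
      q⁻¹ * (((q ^ (k + 1))⁻¹ * S1 - q * (2 + z)) - (q ^ (k + 1))⁻¹ * (S1 - S2)) := by
    push_cast
    field_simp
    ring
  have h4 : |(q ^ (k + 1))⁻¹ * (S1 - S2)| ≤ (c1 + c2 * Dg) * s := by
    rw [_root_.abs_mul, abs_of_pos (inv_pos.2 (by positivity)), inv_mul_le_iff₀ (by positivity)]
    refine h1.trans (le_of_eq ?_)
    ring
  rw [e1, _root_.abs_mul, abs_of_pos (inv_pos.2 hq), mul_assoc, inv_mul_le_iff₀ hq]
  have h5 : |((q ^ (k + 1))⁻¹ * S1 - q * (2 + z)) - (q ^ (k + 1))⁻¹ * (S1 - S2)| ≤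
      (B + (c1 + c2 * Dg)) * s := by
    refine (abs_sub _ _).trans ?_
    rw [add_mul]
    exact add_le_add h0 h4
  have h6 := mul_le_mul_of_nonneg_right h5 hs0.le
  have h7 : (B + (c1 + c2 * Dg)) * s * s = q * (B + (c1 + c2 * Dg)) := by
    have : s * s = q := Real.mul_self_sqrt hq.le
    rw [mul_assoc, this]
    ring
  rw [h7] at h6
  exact h6

theorem few_surface (R : Finset (HeightOneSpectrum (𝓞 K))) :
    FewPoints (surfaceBase G D) R (2 ^ l) := by
  intro κ _ _ φ _
  let _ := Fintype.ofFinite κ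
  rw [Nat.card_eq_fintype_card (α := κ)]
  exact card_surface φ

/-- **The pole of the L-function of `H²`.** -/
theorem surface_pole (h : IsSurfacePencil g n G a α) (hD0 : D ≠ 0)
    (hD1 : C (C D) ∈ Ideal.span {family a α, derivative (family a α), dt (family a α)})
    (hD2 : C D ∈ Ideal.span {atInfinity g n (family a α),
      derivative (atInfinity g n (family a α))}) (R : Finset (HeightOneSpectrum (𝓞 K)))
    (E : IntermediateField K (AlgebraicClosure K)) [NumberField E] :
    HasPole (surfaceBase G D) R E (surfaceTrace g n G a α D) (3 / 2) 1 (classes G a α E + 2) := by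
  classical
  obtain ⟨B, c, hc, hasy⟩ := wW_asy h hD0 hD1 hD2
  have hd := a1_deg (g := g) h.monic h.degree
  obtain ⟨δ, y, hy, hy0, hδ, hP⟩ := isPartOf (g := g) hd.1 hd.2 h.number
    (eval_a1_ne h.nonzero) (alpha1_inj h.distinct) (ne_of_ind (indep1 h.independent))
  have hrk := rank_eq (eval_a1_ne h.nonzero) (ne_of_ind (indep1 h.independent))
    (indep1 h.independent) (hy := hy) (hy0 := hy0) hδ E
  have hrk2 : Pool.Agent.W353.TD.rank (rp hy hy0) E = classes G a α E := by
    rw [← count_eq]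
    exact_mod_cast hrk
  have hsmooth := smooth (G := G1 G) (α := α1 α) (g := g) hd.1 hd.2 h.number R
  have hsm0 := smooth (G := G1 G) (α := α1 α) (g := g) hd.1 hd.2 h.number ∅
  have key := key_add (R := R) 2 hP
    (δ := fun κ _ φ => -av (pencil g (G1 G) (a1 a) (α1 α)) φ)
    (α := wW (surfaceBase G D) (surfaceTrace g n G a α D) 1) (fun κ _ _ φ hφ z hz => by
      obtain ⟨A, hA, rfl⟩ := hz
      rw [Pool.Agent.Y707.RX.av_eq hsmooth hφ hA]) hc
    (fun κ _ _ φ hφ => by
      have h1 := hasy κ φ hφ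
      have hoff : Off (∅ : Finset (HeightOneSpectrum (𝓞 K))) φ :=
        fun v hv => absurd hv (Finset.notMem_empty v)
      have h2 := Pool.Agent.Y707.RX.av_eq hsm0 hoff (isAverage_TT hd.1 hd.2 h.number φ)
      rw [← h2, neg_neg, Nat.card_eq_fintype_card]
      exact h1) E
  rw [hrk2] at key
  have e : ((2 : ℤ) + (classes G a α E : ℕ)) = (classes G a α E + 2 : ℤ) := by ring
  rw [e] at key
  refine hasPole (C := 2 ^ l) (C' := 2 ^ l * cS r g D) (Ct := 4 * g + 2) invariant_surface
    (by norm_num) (by positivity) (few_surface R) (fun κ _ _ φ _ t ht => ?_)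
    (fun κ _ _ φ _ => abs_wW h φ) key
  let _ := Fintype.ofFinite κ
  obtain ⟨z, rfl⟩ := (ptE κ k l).surjective t
  have h2 := ringChar_of_two ((mem_surface φ z).1 ht).2.1
  show |traceTwo g n (surfaceAt a α (MvPolynomial.eval₂Hom φ (ptE κ k l z)))| ≤ _
  rw [surfaceAt_pt]
  refine (tr_abs h h2 φ z.1 z.2.2).trans (le_of_eq ?_)
  rw [Nat.card_eq_fintype_card]
  have hq : (0 : ℝ) < Fintype.card κ := by exact_mod_cast Fintype.card_pos (α := κ)
  congr 1
  rw [Real.sqrt_eq_rpow]
  nth_rewrite 1 [← Real.rpow_one (Fintype.card κ : ℝ)]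
  rw [← Real.rpow_add hq]
  norm_num

/-- `D(x, w)` is nonzero and lies in the ideals of the generic member `F`, `∂F/∂X`, `∂F/∂t` and of `F_∞`
and its derivative: the surfaces over the points with `2 D(x, w) ≠ 0` are smooth. -/
structure IsDiscriminant (g n : ℕ) (a : (MvPolynomial (Fin k) (𝓞 K))[X][X])
    (α : Fin r → (MvPolynomial (Fin k) (𝓞 K))[X]) (D : (MvPolynomial (Fin k) (𝓞 K))[X]) :
    Prop where
  nonzero : D ≠ 0
  finite : C (C D) ∈ Ideal.span {family a α, derivative (family a α), dt (family a α)}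
  infinite : C D ∈ Ideal.span {atInfinity g n (family a α),
    derivative (atInfinity g n (family a α))}

theorem smooth_point (h : IsSurfacePencil g n G a α) (hD : IsDiscriminant g n a α D)
    {κ : Type} [Field κ] (φ : 𝓞 K →+* κ) (t : Fin (k + l + 1) → κ)
    (ht : t ∈ (surfaceBase G D).points φ) :
    IsSmoothSurface g n (surfaceAt (l := l) a α (MvPolynomial.eval₂Hom φ t)) := by
  obtain ⟨z, rfl⟩ := (ptE κ k l).surjective t
  obtain ⟨-, h2, -, h3⟩ := (mem_surface φ z).1 ht
  rw [surfaceAt_pt]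
  exact smooth_member h2 h hD.finite hD.infinite (MvPolynomial.eval₂Hom φ z.1) z.2.2 h3

theorem exists_discriminant (h : IsSurfacePencil g n G a α) : ∃ D, IsDiscriminant g n a α D := by
  obtain ⟨D, h1, h2, h3⟩ := h.smooth
  exact ⟨D, h1, h2, h3⟩

end

end Pool.Agent.Q11.PB
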