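import Pool.Agent.Q11.PB.Pole

/-!
# Euler products for traces given by numbers of points

The traces of the powers of the Frobenius at a closed point `y` of the base are the values of a function
`τ` on the homomorphisms from the coordinate ring to finite fields with kernel `y`.
-/

set_option autoImplicit false
set_option maxHeartbeats 400000

namespace Pool.Agent.Q11.PB

open NumberField IsDedekindDomain Filter Topology
open Pool.Agent.H126R3 (Qc Qc_pos)
open Pool.Agent.W385.CP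
open Pool.Agent.W353.FB (Fibration)
open Pool.Agent.Y707.PH (Off Bf mp Ys Few Pts comp_mp mem_Ys card_eH)
open Pool.Agent.Y707.RX (sm cmb)

/-- two extensions of the same degree of a finite field are isomorphic -/
theorem exists_iso {κ₀ κ κ' : Type} [Field κ₀] [Field κ] [Finite κ] [Field κ'] [Finite κ']
    (i : κ₀ →+* κ) (i' : κ₀ →+* κ') (h : Nat.card κ = Nat.card κ') :
    ∃ θ : κ ≃+* κ', (θ : κ →+* κ').comp i = i' := by
  have h0 : Finite κ₀ := Finite.of_injective _ i.injective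
  letI := i.toAlgebra
  letI := i'.toAlgebra
  have hd : Module.finrank κ₀ κ = Module.finrank κ₀ κ' := by
    have h1 := Module.natCard_eq_pow_finrank (K := κ₀) (V := κ)
    have h2 := Module.natCard_eq_pow_finrank (K := κ₀) (V := κ')
    rw [h, h2] at h1
    exact (Nat.pow_right_injective (Finite.one_lt_card : 2 ≤ Nat.card κ₀) h1).symm
  obtain ⟨f⟩ := FiniteField.nonempty_algHom_of_finrank_dvd (F := κ₀) (K := κ) (L := κ')
    (dvd_of_eq hd)
  have hb : Function.Bijective f :=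
    (Nat.bijective_iff_injective_and_card f).2 ⟨f.toRingHom.injective, h⟩
  refine ⟨RingEquiv.ofBijective f hb, ?_⟩
  ext x
  exact f.commutes x

section
variable {K : Type} [Field K] [NumberField K]

/-- the type of the trace functions -/
abbrev Trace (f : Fibration K) : Type 1 :=
  ∀ (κ : Type) [Field κ], (MvPolynomial (Fin f.l) (𝓞 K) →+* κ) → ℝ

/-- `b y n` is the trace of the `n`-th power of the Frobenius at the closed point `y`: the value of `τ` at
the homomorphisms with kernel `y` to the fields with `q_y ^ n` elements. -/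
def IsTraces (f : Fibration K) (R : Finset (HeightOneSpectrum (𝓞 K))) (F : Type) [Field F]
    [NumberField F] [Algebra K F] (τ : Trace f) (b : Pts f R F → ℕ → ℂ) : Prop :=
  ∀ (y : Pts f R F) (n : ℕ) (κ : Type) [Field κ] (ψ : MvPolynomial (Fin f.l) (𝓞 F) →+* κ),
    1 ≤ n → RingHom.ker ψ = y.1.asIdeal →
    Nat.card κ = Nat.card (MvPolynomial (Fin f.l) (𝓞 F) ⧸ y.1.asIdeal) ^ n →
    b y n = τ κ (ψ.comp (MvPolynomial.map (algebraMap (𝓞 K) (𝓞 F))))

variable {f : Fibration K} {R : Finset (HeightOneSpectrum (𝓞 K))} {F : Type} [Field F]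
  [NumberField F] [Algebra K F] {τ : Trace f}

/-- there are homomorphisms to all extensions -/
theorem exists_hom (y : MaximalSpectrum (Bf f F)) {n : ℕ} (hn : 1 ≤ n) :
    ∃ (κ : Type) (_ : Field κ) (_ : Finite κ) (ψ : Bf f F →+* κ),
      RingHom.ker ψ = y.asIdeal ∧ Nat.card κ = qn y ^ n := by
  obtain ⟨p, hp⟩ := CharP.exists (Rs y)
  have hpp : Fact p.Prime := ⟨CharP.char_is_prime (Rs y) p⟩
  have hne : NeZero n := ⟨by omega⟩
  refine ⟨FiniteField.Extension (Rs y) p n, inferInstance, inferInstance,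
    (algebraMap (Rs y) (FiniteField.Extension (Rs y) p n)).comp (Ideal.Quotient.mk y.asIdeal), ?_,
    FiniteField.natCard_extension (Rs y) p n⟩
  ext x
  rw [RingHom.mem_ker, RingHom.comp_apply, map_eq_zero, Ideal.Quotient.eq_zero_iff_mem]

open Classical in
variable (f R F τ) in
/-- the traces -/
noncomputable def tT (y : MaximalSpectrum (Bf f F)) (n : ℕ) : ℂ :=
  if h : y ∈ Ys f R F ∧ 1 ≤ n then
    letI := (exists_hom (f := f) y h.2).choose_spec.choose
    ((τ (exists_hom (f := f) y h.2).choose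
      ((exists_hom (f := f) y h.2).choose_spec.choose_spec.choose_spec.choose.comp
        (mp f F)) : ℝ) : ℂ) else 0

/-- the trace function does not change under isomorphisms of finite fields -/
def Invariant (τ : Trace f) : Prop :=
  ∀ (κ κ' : Type) [Field κ] [Field κ'] [Finite κ] [Finite κ'] (θ : κ ≃+* κ')
    (ψ : MvPolynomial (Fin f.l) (𝓞 K) →+* κ), τ κ' ((θ : κ →+* κ').comp ψ) = τ κ ψ

theorem tT_eq (hτ : Invariant τ) {y : MaximalSpectrum (Bf f F)} (hy : y ∈ Ys f R F) {n : ℕ}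
    (hn : 1 ≤ n) {κ : Type} [Field κ] [Finite κ] {ψ : Bf f F →+* κ} (hψ : RingHom.ker ψ = y.asIdeal)
    (hκ : Nat.card κ = qn y ^ n) : tT f R F τ y n = τ κ (ψ.comp (mp f F)) := by
  classical
  have h : y ∈ Ys f R F ∧ 1 ≤ n := ⟨hy, hn⟩
  unfold tT
  rw [dif_pos h]
  set κ₀ := (exists_hom (f := f) y h.2).choose with hκ₀
  letI := (exists_hom (f := f) y h.2).choose_spec.choose
  haveI := (exists_hom (f := f) y h.2).choose_spec.choose_spec.choose
  set ψ₀ := (exists_hom (f := f) y h.2).choose_spec.choose_spec.choose_spec.choose with hψ₀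
  obtain ⟨h1, h2⟩ := (exists_hom (f := f) y h.2).choose_spec.choose_spec.choose_spec.choose_spec
  let i₀ : Rs y →+* κ₀ := Ideal.Quotient.lift y.asIdeal ψ₀ fun x hx => by
    rw [← h1] at hx
    exact hx
  let i : Rs y →+* κ := Ideal.Quotient.lift y.asIdeal ψ fun x hx => by
    rw [← hψ] at hx
    exact hx
  obtain ⟨θ, hθ⟩ := exists_iso i₀ i (h2.trans hκ.symm)
  have h3 : (θ : κ₀ →+* κ).comp ψ₀ = ψ := by
    refine RingHom.ext fun x => ?_
    exact RingHom.congr_fun hθ (Ideal.Quotient.mk y.asIdeal x)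
  rw [← h3, RingHom.comp_assoc, hτ κ₀ κ θ]

theorem isTraces_tT (hτ : Invariant τ) : IsTraces f R F τ fun y n => tT f R F τ y.1 n := by
  intro y n κ _ ψ hn hψ hκ
  have h1 : Nat.card κ ≠ 0 := by
    rw [hκ]
    exact pow_ne_zero _ Nat.card_pos.ne'
  have hfk : Finite κ := Nat.finite_of_card_ne_zero h1
  exact tT_eq hτ y.2 hn hψ hκ

theorem IsTraces.unique {b b' : Pts f R F → ℕ → ℂ} (h : IsTraces f R F τ b)
    (h' : IsTraces f R F τ b') (y : Pts f R F) (n : ℕ) (hn : 1 ≤ n) : b y n = b' y n := by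
  obtain ⟨κ, _, _, ψ, h1, h2⟩ := exists_hom (f := f) y.1 hn
  rw [h y n κ ψ hn h1 h2, h' y n κ ψ hn h1 h2]

/-- the base has few points -/
def FewPoints (f : Fibration K) (R : Finset (HeightOneSpectrum (𝓞 K))) (C : ℝ) : Prop :=
  ∀ (κ : Type) [Field κ] [Finite κ] (φ : 𝓞 K →+* κ), Off R φ →
    (Nat.card (f.points φ) : ℝ) ≤ C * (Nat.card κ : ℝ) ^ f.m

/-- few points -/
theorem few_of {C : ℝ} (hf : FewPoints f R C) :
    Few (Ys f R F) f.m (Module.finrank ℤ (𝓞 F) * |C|) := by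
  classical
  intro c
  have hfin := hom_int F (Fc c)
  have hf1 := hfin.1
  let _ := Fintype.ofFinite (𝓞 F →+* Fc c)
  let _ := Fintype.ofFinite (Fc c)
  have hBfin := (homBd_poly F (Fin f.l)).fin (Fc c)
  let e : {ψ : Bf f F →+* Fc c // ptH ψ ∈ Ys f R F} →
      Σ φ : 𝓞 F →+* Fc c, {t : Fin f.l → Fc c //
        t ∈ f.points (φ.comp (algebraMap (𝓞 K) (𝓞 F))) ∧ Off R (φ.comp (algebraMap (𝓞 K) (𝓞 F)))} :=
    fun ψ => ⟨ψ.1.comp MvPolynomial.C, fun i => ψ.1 (MvPolynomial.X i), (mem_Ys ψ.1).1 ψ.2⟩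
  have he : Function.Injective e := by
    intro ψ ψ' h
    apply Subtype.ext
    apply (homE F (Fin f.l) (Fc c)).injective
    have h1 : ψ.1.comp MvPolynomial.C = ψ'.1.comp MvPolynomial.C := congrArg Sigma.fst h
    refine Prod.ext h1 ?_
    change (fun i => ψ.1 (MvPolynomial.X i)) = (fun i => ψ'.1 (MvPolynomial.X i))
    have h2 : ∀ z z' : (Σ φ : 𝓞 F →+* Fc c, {t : Fin f.l → Fc c //
        t ∈ f.points (φ.comp (algebraMap (𝓞 K) (𝓞 F))) ∧
          Off R (φ.comp (algebraMap (𝓞 K) (𝓞 F)))}), z = z' → z.2.1 = z'.2.1 := by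
      rintro z z' rfl
      rfl
    exact h2 _ _ h
  have h1 := Nat.card_le_card_of_injective e he
  have h2 : (Nat.card (Σ φ : 𝓞 F →+* Fc c, {t : Fin f.l → Fc c //
        t ∈ f.points (φ.comp (algebraMap (𝓞 K) (𝓞 F))) ∧
          Off R (φ.comp (algebraMap (𝓞 K) (𝓞 F)))}) : ℝ) ≤
      Module.finrank ℤ (𝓞 F) * |C| * (Qc c : ℝ) ^ f.m := by
    rw [Nat.card_sigma]
    push_cast
    have h3 : ∀ φ ∈ (Finset.univ : Finset (𝓞 F →+* Fc c)), (Nat.card {t : Fin f.l → Fc c //
        t ∈ f.points (φ.comp (algebraMap (𝓞 K) (𝓞 F))) ∧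
          Off R (φ.comp (algebraMap (𝓞 K) (𝓞 F)))} : ℝ) ≤ |C| * (Qc c : ℝ) ^ f.m := by
      intro φ _
      by_cases h : Off R (φ.comp (algebraMap (𝓞 K) (𝓞 F)))
      · have h4 := hf (Fc c) _ h
        rw [card_Fc] at h4
        refine le_trans ?_ (h4.trans (mul_le_mul_of_nonneg_right (le_abs_self C) (by positivity)))
        have h5 : Nat.card {t : Fin f.l → Fc c //
            t ∈ f.points (φ.comp (algebraMap (𝓞 K) (𝓞 F))) ∧
              Off R (φ.comp (algebraMap (𝓞 K) (𝓞 F)))} ≤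
            Nat.card (f.points (φ.comp (algebraMap (𝓞 K) (𝓞 F)))) :=
          Nat.card_le_card_of_injective (fun t => ⟨t.1, t.2.1⟩) fun t t' h => by
            have h6 : t.1 = t'.1 := congrArg (fun z : (f.points
              (φ.comp (algebraMap (𝓞 K) (𝓞 F)))) => z.1) h
            exact Subtype.ext h6
        exact_mod_cast h5
      · have h5 : IsEmpty {t : Fin f.l → Fc c //
            t ∈ f.points (φ.comp (algebraMap (𝓞 K) (𝓞 F))) ∧
              Off R (φ.comp (algebraMap (𝓞 K) (𝓞 F)))} := ⟨fun t => h t.2.2⟩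
        rw [Nat.card_of_isEmpty]
        push_cast
        positivity
    refine (Finset.sum_le_card_nsmul _ _ _ h3).trans ?_
    rw [nsmul_eq_mul, Finset.card_univ, ← Nat.card_eq_fintype_card, mul_assoc]
    refine mul_le_mul_of_nonneg_right ?_ (by positivity)
    exact_mod_cast hfin.2
  have h3 : (Nat.card {ψ : Bf f F →+* Fc c // ptH ψ ∈ Ys f R F} : ℝ) ≤
      (Nat.card (Σ φ : 𝓞 F →+* Fc c, {t : Fin f.l → Fc c //
        t ∈ f.points (φ.comp (algebraMap (𝓞 K) (𝓞 F))) ∧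
          Off R (φ.comp (algebraMap (𝓞 K) (𝓞 F)))}) : ℝ) := by exact_mod_cast h1
  exact h3.trans h2

variable (f τ) in
/-- the normalized averages -/
noncomputable def wW (j : ℕ) (κ : Type) [Field κ] (φ : 𝓞 K →+* κ) : ℝ :=
  ((Nat.card κ : ℝ) ^ (f.m + j))⁻¹ * ∑ᶠ t ∈ f.points φ, τ κ (MvPolynomial.eval₂Hom φ t)

theorem one_le_eH {k : Type} [Field k] [Finite k] {c : Nat.Primes × ℕ}
    (hk : Nat.card k = Qc c) (ψ : Bf f F →+* k) : 1 ≤ eH c (ptH ψ) := by
  by_contra h
  have h0 : eH c (ptH ψ) = 0 := by omega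
  have h1 := card_eH hk ψ
  rw [h0, pow_zero] at h1
  have : 1 < Nat.card k := Finite.one_lt_card
  omega

theorem sum_tT (hτ : Invariant τ) (j : ℕ) {k : Type} [Field k] [Finite k] {c : Nat.Primes × ℕ}
    (hk : Nat.card k = Qc c) :
    ∑ᶠ ψ : Bf f F →+* k, tT f R F τ (ptH ψ) (eH c (ptH ψ)) =
      ((Qc c : ℕ) : ℂ) ^ (f.m + j) * ((sm R F (wW f τ j) k : ℝ) : ℂ) := by
  classical
  have hfin := (hom_int F k).1
  let _ := Fintype.ofFinite (𝓞 F →+* k)
  let _ := Fintype.ofFinite k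
  have hsm : ((Qc c : ℕ) : ℂ) ^ (f.m + j) * ((sm R F (wW f τ j) k : ℝ) : ℂ) =
      ∑ φ : 𝓞 F →+* k, ((if Off R (φ.comp (algebraMap (𝓞 K) (𝓞 F))) then
        ∑ t : Fin f.l → k, (if t ∈ f.points (φ.comp (algebraMap (𝓞 K) (𝓞 F))) then
          τ k (MvPolynomial.eval₂Hom (φ.comp (algebraMap (𝓞 K) (𝓞 F))) t) else 0)
            else 0 : ℝ) : ℂ) := by
    unfold sm
    rw [finsum_eq_sum_of_fintype, Complex.ofReal_sum, Finset.mul_sum]
    refine Finset.sum_congr rfl fun φ _ => ?_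
    split_ifs with h
    · unfold wW
      have h1 : (∑ᶠ t ∈ f.points (φ.comp (algebraMap (𝓞 K) (𝓞 F))),
          τ k (MvPolynomial.eval₂Hom (φ.comp (algebraMap (𝓞 K) (𝓞 F))) t)) =
          ∑ t : Fin f.l → k, (if t ∈ f.points (φ.comp (algebraMap (𝓞 K) (𝓞 F))) then
          τ k (MvPolynomial.eval₂Hom (φ.comp (algebraMap (𝓞 K) (𝓞 F))) t) else 0) := by
        rw [← finsum_eq_sum_of_fintype]
        refine finsum_congr fun t => ?_
        by_cases h' : t ∈ f.points (φ.comp (algebraMap (𝓞 K) (𝓞 F)))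
        · rw [if_pos h']
          simp [h']
        · rw [if_neg h']
          simp [h']
      rw [h1, hk]
      have hq : ((Qc c : ℕ) : ℂ) ≠ 0 := by exact_mod_cast (Qc_pos c).ne'
      push_cast
      field_simp
    · rw [Complex.ofReal_zero, mul_zero]
  rw [hsm, ← finsum_comp_equiv (homE F (Fin f.l) k).symm, finsum_eq_sum_of_fintype,
    Fintype.sum_prod_type]
  refine Finset.sum_congr rfl fun φ _ => ?_
  set φ' := φ.comp (algebraMap (𝓞 K) (𝓞 F)) with hφ'
  have hC : ∀ t : Fin f.l → k, (((homE F (Fin f.l) k).symm (φ, t)).comp MvPolynomial.C).comp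
      (algebraMap (𝓞 K) (𝓞 F)) = φ' := by
    intro t
    have : ((homE F (Fin f.l) k).symm (φ, t)).comp MvPolynomial.C = φ :=
      congrArg Prod.fst ((homE F (Fin f.l) k).apply_symm_apply (φ, t))
    rw [this]
  have hX : ∀ t : Fin f.l → k, (fun i => ((homE F (Fin f.l) k).symm (φ, t)) (MvPolynomial.X i)) =
      t := by
    intro t
    exact congrArg Prod.snd ((homE F (Fin f.l) k).apply_symm_apply (φ, t))
  have hmem : ∀ t : Fin f.l → k, ptH ((homE F (Fin f.l) k).symm (φ, t)) ∈ Ys f R F ↔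
      t ∈ f.points φ' ∧ Off R φ' := by
    intro t
    rw [mem_Ys, hC, hX]
  have htr : ∀ t : Fin f.l → k, tT f R F τ (ptH ((homE F (Fin f.l) k).symm (φ, t)))
      (eH c (ptH ((homE F (Fin f.l) k).symm (φ, t)))) =
      if t ∈ f.points φ' ∧ Off R φ' then
        ((τ k (MvPolynomial.eval₂Hom φ' t) : ℝ) : ℂ) else 0 := by
    intro t
    by_cases h : t ∈ f.points φ' ∧ Off R φ'
    · rw [if_pos h, tT_eq hτ ((hmem t).2 h) (one_le_eH hk _) (ψ := (homE F (Fin f.l) k).symm (φ, t))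
        rfl (card_eH hk _), comp_mp, hC, hX]
    · rw [if_neg h]
      unfold tT
      rw [dif_neg fun h' => h ((hmem t).1 h'.1)]
  rw [Finset.sum_congr rfl fun t _ => htr t]
  by_cases hoff : Off R φ'
  · rw [if_pos hoff, Complex.ofReal_sum]
    refine Finset.sum_congr rfl fun t _ => ?_
    by_cases h : t ∈ f.points φ'
    · rw [if_pos h, if_pos ⟨h, hoff⟩]
    · rw [if_neg h, if_neg fun h' => h h'.1, Complex.ofReal_zero]
  · rw [if_neg hoff, Complex.ofReal_zero]
    refine Finset.sum_eq_zero fun t _ => ?_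
    rw [if_neg fun h' => hoff h'.2]

/-- The Euler product with the traces `b y n` of weight `w`, given by `τ`, has a pole of order `r` at
`s = dim 𝒴 + j`: the product of the `exp (∑ b y n q_y^{-ns} / n)` over the closed points `y` converges
absolutely for `Re s > dim 𝒴 + w`, to the function `Λ`, and `Λ` is meromorphic at the real numbers
`s ≥ dim 𝒴 + j` (`dim 𝒴 = m + 1`), with a pole of order `r` at `dim 𝒴 + j`. -/
def HasPole (f : Fibration K) (R : Finset (HeightOneSpectrum (𝓞 K))) (F : Type) [Field F]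
    [NumberField F] [Algebra K F] (τ : Trace f) (w : ℝ) (j : ℕ) (r : ℤ) : Prop :=
  ∃ (b : Pts f R F → ℕ → ℂ) (Λ : ℂ → ℂ), IsTraces f R F τ b ∧
    (∀ s : ℂ, (f.m : ℝ) + 1 + w < s.re →
      HasProd (fun y : Pts f R F => Complex.exp (∑' n : ℕ, b y (n + 1) *
        ((Nat.card (MvPolynomial (Fin f.l) (𝓞 F) ⧸ y.1.asIdeal) : ℕ) : ℂ) ^ (-((n + 1 : ℂ) * s)) /
          (n + 1 : ℂ))) (Λ s)) ∧
    (∀ x : ℝ, (f.m : ℝ) + j + 1 ≤ x → MeromorphicAt Λ (x : ℂ)) ∧
    meromorphicOrderAt Λ ((f.m : ℂ) + j + 1) = ((-r : ℤ) : WithTop ℤ)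

/-- **Poles for traces given by numbers of points.** -/
theorem hasPole {w Ct C C' : ℝ} {j : ℕ} {r : ℤ} (hτ : Invariant τ) (hjw : (j : ℝ) ≤ w)
    (hCt : 0 ≤ Ct) (hf : FewPoints f R C)
    (hT : ∀ (κ : Type) [Field κ] [Finite κ] (φ : 𝓞 K →+* κ), Off R φ → ∀ t ∈ f.points φ,
      |τ κ (MvPolynomial.eval₂Hom φ t)| ≤ Ct * (Nat.card κ : ℝ) ^ w)
    (hW : ∀ (κ : Type) [Field κ] [Finite κ] (φ : 𝓞 K →+* κ), Off R φ → |wW f τ j κ φ| ≤ C')
    (hkey : ∃ (κ : Type) (_ : Fintype κ) (L : κ → Type) (_ : ∀ i, Field (L i))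
      (_ : ∀ i, NumberField (L i)) (a : κ → ℝ) (D : ℝ), ∑ i, a i = (r : ℝ) ∧
      ∀ᶠ p : Nat.Primes in cofinite,
        haveI : Fact (p : ℕ).Prime := ⟨p.2⟩
        ‖((-sm R F (wW f τ j) (ZMod (p : ℕ)) : ℝ) : ℂ) + cmb L a p‖ ≤
          D * ((p : ℕ) : ℝ) ^ (-(1 / 2) : ℝ)) :
    HasPole f R F τ w j r := by
  classical
  have hT1 : ∀ y n, ‖tT f R F τ y (n + 1)‖ ≤ Ct * (((qn y : ℕ) : ℝ) ^ (n + 1)) ^ w := by
    intro y n
    by_cases hy : y ∈ Ys f R F
    · obtain ⟨κ, _, _, ψ, h1, h2⟩ := exists_hom (f := f) y (n := n + 1) (by omega)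
      have h3 : ptH ψ = y := by
        apply MaximalSpectrum.ext
        exact h1
      rw [tT_eq hτ hy (by omega) h1 h2, Complex.norm_real, Real.norm_eq_abs, comp_mp]
      have h4 : ptH ψ ∈ Ys f R F := by rwa [h3]
      obtain ⟨h5, h6⟩ := (mem_Ys _).1 h4
      have h7 := hT κ _ h6 _ h5
      rw [h2] at h7
      push_cast at h7
      exact h7
    · unfold tT
      rw [dif_neg fun h => hy h.1, norm_zero]
      positivity
  have hT0 : ∀ y, y ∉ Ys f R F → ∀ n, tT f R F τ y (n + 1) = 0 := by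
    intro y hy n
    unfold tT
    rw [dif_neg fun h => hy h.1]
  obtain ⟨Λ, h1, h2, h3⟩ := pole_engine (f := f) (R := R) (F := F) (T := tT f R F τ) (w := w)
    (j := j) (Ct := Ct) (C₁ := Module.finrank ℤ (𝓞 F) * |C|) (C' := C') (r := r)
    hjw hCt hT1 hT0 (few_of hf) (W := wW f τ j)
    (fun c k _ _ hk => sum_tT hτ j hk) hW hkey
  exact ⟨fun y n => tT f R F τ y.1 n, Λ, isTraces_tT hτ, fun s hs => h1 s hs, h2, h3⟩

end

end Pool.Agent.Q11.PB
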